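import Mathlib

/-!
# MP_364488_co: internal definitions (engine)

Everything here is about one graph `G` on a type `V : Type`.  `Excl G t` says that `G` does not
contain the (exact) `r`-subdivision of `K_{t r}`, for all `r`; all constants produced by the
engine depend on the function `t` only.
-/

namespace Pool.Agent.Helper28.HD

open SimpleGraph

variable {V : Type}

/-- `Near G M k u v`: there is a walk of length at most `k` from `u` to `v`, all of whose
vertices (including `u` and `v`) lie in `M`. -/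
def Near (G : SimpleGraph V) (M : Set V) (k : ℕ) (u v : V) : Prop :=
  ∃ p : G.Walk u v, p.length ≤ k ∧ ∀ x ∈ p.support, x ∈ M

/-- `G` contains the (exact) `r`-subdivision of `K_n` as a subgraph: `f i` are the branch
vertices, `P i j` (for `i < j`) is the path `f i = P i j 0, P i j 1, ..., P i j (r+1) = f j`. -/
def HasSubdiv (G : SimpleGraph V) (r n : ℕ) : Prop :=
  ∃ (f : Fin n → V) (P : Fin n → Fin n → ℕ → V), Function.Injective f ∧
    (∀ i j, i < j → P i j 0 = f i ∧ P i j (r + 1) = f j) ∧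
    (∀ i j, i < j → ∀ l, l ≤ r → G.Adj (P i j l) (P i j (l + 1))) ∧
    (∀ i j, i < j → ∀ l, 1 ≤ l → l ≤ r → ∀ k, P i j l ≠ f k) ∧
    (∀ i j i' j', i < j → i' < j' → ∀ l l', 1 ≤ l → l ≤ r → 1 ≤ l' → l' ≤ r →
      P i j l = P i' j' l' → i = i' ∧ j = j' ∧ l = l')

/-- `G` excludes, for every `r`, the `r`-subdivision of `K_{t r}`. -/
def Excl (G : SimpleGraph V) (t : ℕ → ℕ) : Prop := ∀ r, ¬ HasSubdiv G r (t r)

/-- An `s`-family on `X`: a family of pairwise internally disjoint paths of length exactly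
`s + 1` in `G`, with both (distinct) ends in `X`, inner vertices outside `X`, and different
members of the family joining different (unordered) pairs.  In other words: the exact
`s`-subdivision of a graph with vertex set `X` and edge set indexed by `ι`. -/
structure IsFam (G : SimpleGraph V) (s : ℕ) (X : Set V) {ι : Type} (P : ι → ℕ → V) : Prop where
  left_mem : ∀ i, P i 0 ∈ X
  right_mem : ∀ i, P i (s + 1) ∈ X
  ends_ne : ∀ i, P i 0 ≠ P i (s + 1)
  adj : ∀ i, ∀ l, l ≤ s → G.Adj (P i l) (P i (l + 1))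
  inner : ∀ i, ∀ l, 1 ≤ l → l ≤ s → P i l ∉ X
  inj : ∀ i j, ∀ l m, 1 ≤ l → l ≤ s → 1 ≤ m → m ≤ s → P i l = P j m → i = j ∧ l = m
  pairs : ∀ i j, i ≠ j → s(P i 0, P i (s + 1)) ≠ s(P j 0, P j (s + 1))

/-- Density bound (module 1): an `s`-family on `X` has at most `c |X|^(1+1/j)` members. -/
def DenBound (t : ℕ → ℕ) : Prop :=
  ∀ j, 1 ≤ j → ∀ s, ∃ c : ℕ, ∀ (V : Type) (G : SimpleGraph V), Excl G t →
    ∀ (X : Finset V) (ι : Type) [Fintype ι] (P : ι → ℕ → V), IsFam G s (X : Set V) P →
      (Fintype.card ι) ^ j ≤ c * X.card ^ (j + 1)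

/-- Weak reachability with respect to a ranking `π` of the vertices: `u` is reached from `v` by a
walk of length at most `r` on which `u` has the smallest rank. -/
def WR (G : SimpleGraph V) (π : V → ℕ) (r : ℕ) (v u : V) : Prop :=
  ∃ p : G.Walk v u, p.length ≤ r ∧ ∀ x ∈ p.support, π u ≤ π x

open Classical in
/-- Weak colouring number bound (module 2): `wcol_r(G) ≤ (c |X|)^(1/j)` for graphs with all edges
inside the finite set `X`. -/
def WcolBound (t : ℕ → ℕ) : Prop :=
  ∀ r j, 1 ≤ j → ∃ c : ℕ, ∀ (V : Type) (G : SimpleGraph V), Excl G t →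
    ∀ X : Finset V, (∀ u v, G.Adj u v → u ∈ X) →
      ∃ π : V → ℕ, Set.InjOn π (X : Set V) ∧
        ∀ v ∈ X, (X.filter (fun u => WR G π r v u)).card ^ j ≤ c * X.card

/-- Uniform quasi-wideness (module 3). -/
def UQW (t : ℕ → ℕ) : Prop :=
  ∀ R, ∃ s, ∀ m, ∃ N, ∀ (V : Type) (G : SimpleGraph V), Excl G t →
    ∀ A : Finset V, N ≤ A.card → ∃ S : Finset V, S.card ≤ s ∧ ∃ B : Finset V, B ⊆ A ∧
      Disjoint B S ∧ m ≤ B.card ∧
      ∀ a ∈ B, ∀ b ∈ B, a ≠ b → ¬ Near G ((S : Set V)ᶜ) R a b

/-- Splitter wins in `k` rounds on the arena `M` (radius `R`, at most `w` vertices deleted per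
round). -/
def SW (G : SimpleGraph V) (R w : ℕ) : ℕ → Set V → Prop
  | 0, M => M = ∅
  | k + 1, M => ∀ z ∈ M, ∃ W : Finset V, W.card ≤ w ∧ SW G R w k ({x | Near G M R z x} \ W)

/-- Bounded length of the splitter game (module 4). -/
def GameBound (t : ℕ → ℕ) : Prop :=
  ∀ R, ∃ k w, ∀ (V : Type) (G : SimpleGraph V), Excl G t → SW G R w k Set.univ

open Classical in
/-- Sparse covers (module 5): every `a ∈ A` gets a center `key a` at distance at most `r`
in the arena `M`, such that every vertex `b` of the graph sees few keys. -/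
def CoverBound (t : ℕ → ℕ) : Prop :=
  ∀ r j, 1 ≤ j → ∃ c : ℕ, ∀ (V : Type) (G : SimpleGraph V), Excl G t →
    ∀ (M : Set V) (A : Finset V), (A : Set V) ⊆ M →
      ∃ key : V → V, (∀ a ∈ A, Near G M r a (key a)) ∧
        ∀ b, ((A.filter (fun a => Near G M r a b)).image key).card ^ j ≤ c * A.card

/-! ### Basic facts about `Near` -/

section Near

variable {G : SimpleGraph V} {M M' : Set V} {k l : ℕ} {u v w : V}

lemma Near.left_mem (h : Near G M k u v) : u ∈ M := by
  obtain ⟨p, -, h⟩ := h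
  exact h u p.start_mem_support

lemma Near.right_mem (h : Near G M k u v) : v ∈ M := by
  obtain ⟨p, -, h⟩ := h
  exact h v p.end_mem_support

lemma near_refl (h : u ∈ M) : Near G M k u u :=
  ⟨Walk.nil, by simp, by simpa using h⟩

lemma Near.symm (h : Near G M k u v) : Near G M k v u := by
  obtain ⟨p, h1, h2⟩ := h
  exact ⟨p.reverse, by simpa using h1, by simpa using h2⟩

lemma near_comm : Near G M k u v ↔ Near G M k v u := ⟨Near.symm, Near.symm⟩

lemma Near.mono (h : Near G M k u v) (hk : k ≤ l) (hM : M ⊆ M') : Near G M' l u v := by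
  obtain ⟨p, h1, h2⟩ := h
  exact ⟨p, h1.trans hk, fun x hx => hM (h2 x hx)⟩

lemma Near.mono_graph {G' : SimpleGraph V} (h : Near G M k u v) (hG : G ≤ G') :
    Near G' M k u v := by
  obtain ⟨p, h1, h2⟩ := h
  exact ⟨p.mapLe hG, by simpa using h1, by simpa using h2⟩

lemma Near.trans (h : Near G M k u v) (h' : Near G M l v w) : Near G M (k + l) u w := by
  obtain ⟨p, h1, h2⟩ := h
  obtain ⟨q, h3, h4⟩ := h'
  refine ⟨p.append q, by simp; omega, fun x hx => ?_⟩
  rw [Walk.mem_support_append_iff] at hx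
  exact hx.elim (h2 x) (h4 x)

lemma near_zero : Near G M 0 u v ↔ u = v ∧ u ∈ M := by
  constructor
  · rintro ⟨p, h1, h2⟩
    have : p.length = 0 := by omega
    exact ⟨Walk.eq_of_length_eq_zero this, h2 _ p.start_mem_support⟩
  · rintro ⟨rfl, h⟩
    exact near_refl h

lemma near_of_adj (h : G.Adj u v) (hu : u ∈ M) (hv : v ∈ M) : Near G M 1 u v :=
  ⟨h.toWalk, by simp, by simp [hu, hv]⟩

/-- Splitting a walk at a vertex. -/
lemma near_split (p : G.Walk u v) (hp : p.length ≤ k) (hM : ∀ x ∈ p.support, x ∈ M)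
    {x : V} (hx : x ∈ p.support) :
    ∃ a b, a + b ≤ k ∧ Near G M a u x ∧ Near G M b x v := by
  classical
  refine ⟨(p.takeUntil x hx).length, (p.dropUntil x hx).length, ?_, ⟨_, le_rfl, ?_⟩,
    ⟨_, le_rfl, ?_⟩⟩
  · have := congrArg Walk.length (p.take_spec hx)
    simp only [Walk.length_append] at this
    omega
  · exact fun y hy => hM y (p.support_takeUntil_subset_support hx hy)
  · exact fun y hy => hM y (p.support_dropUntil_subset_support hx hy)

/-- All vertices of a short walk inside `M` are near its start inside `M`. -/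
lemma near_of_mem_support (p : G.Walk u v) (hp : p.length ≤ k) (hM : ∀ x ∈ p.support, x ∈ M)
    {x : V} (hx : x ∈ p.support) : Near G M k u x := by
  obtain ⟨a, b, h, h1, -⟩ := near_split p hp hM hx
  exact h1.mono (by omega) subset_rfl

end Near

lemma SW.mono {G : SimpleGraph V} {R w : ℕ} : ∀ {k : ℕ} {M M' : Set V}, SW G R w k M → M' ⊆ M →
    SW G R w k M'
  | 0, M, M', h, hs => by
    have h : M = ∅ := h
    subst h
    exact Set.subset_empty_iff.1 hs
  | k + 1, M, M', h, hs => by
    intro z hz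
    obtain ⟨W, hW, h1⟩ := h z (hs hz)
    refine ⟨W, hW, h1.mono ?_⟩
    exact Set.sdiff_subset_sdiff_left (fun x hx => Near.mono hx le_rfl hs)

end Pool.Agent.Helper28.HD
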