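import Mathlib
import Pool.Agent.Helper28.HD.Defs

/-!
# Module 10: the discrepancy bound from a cluster scheme
-/

namespace Pool.Agent.Helper28.HD

open SimpleGraph

variable {V : Type}

open Classical in
/-- The statement of the Beck–Fiala theorem. -/
def BeckFiala : Prop :=
  ∀ (α ι : Type) (X : Finset α) (I : Finset ι) (𝒜 : ι → Finset α) (D : ℕ),
    (∀ x ∈ X, (I.filter (fun i => x ∈ 𝒜 i)).card ≤ D) →
    ∃ χ : α → ℤ, (∀ x, χ x = 1 ∨ χ x = -1) ∧
      ∀ i ∈ I, |∑ x ∈ X.filter (fun x => x ∈ 𝒜 i), χ x| ≤ 2 * D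

open Classical in
/-- Coefficients of the telescoping sum. -/
noncomputable def sgn (ν μ : List V) : ℤ :=
  (if μ = ν then 1 else 0) - (if μ ≠ [] ∧ μ.dropLast = ν then 1 else 0)

lemma sgn_abs_le (ν μ : List V) : |sgn ν μ| ≤ 1 := by
  unfold sgn
  split_ifs <;> simp

lemma sgn_eq_zero {ν μ : List V} (h1 : μ ≠ ν) (h2 : μ.dropLast ≠ ν) : sgn ν μ = 0 := by
  unfold sgn
  rw [if_neg h1, if_neg (fun h => h2 h.2)]
  rfl

open Classical in
lemma last_node (l : List V) (BY : Finset (List V)) (h0 : [] ∈ BY)
    (hp : ∀ ν x, ν ++ [x] ∈ BY → ν ∈ BY) :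
    ∃ ν₀ ∈ BY, ν₀ <+: l ∧ (∀ x, ν₀ ++ [x] <+: l → ν₀ ++ [x] ∉ BY) ∧
      (∀ ν ∈ BY, ν <+: l → ν <+: ν₀) ∧
      ∀ ν ∈ BY, ∑ μ ∈ BY, sgn ν μ * (if μ <+: l then 1 else 0) = if ν = ν₀ then 1 else 0 := by
  set P : ℕ → Prop := fun m => l.take m ∈ BY with hP
  set M := Nat.findGreatest P l.length with hM
  have hMl : M ≤ l.length := Nat.findGreatest_le _
  have hPM : P M := Nat.findGreatest_spec (m := 0) (Nat.zero_le _) (by simpa [hP] using h0)
  have hgt : ∀ m, M < m → m ≤ l.length → ¬ P m := fun m h1 h2 => Nat.findGreatest_is_greatest h1 h2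
  have hle : ∀ m, m ≤ M → P m := by
    intro m hm
    obtain ⟨d, hd⟩ : ∃ d, m + d = M := ⟨M - m, by omega⟩
    clear hm
    induction d generalizing m with
    | zero =>
      have : m = M := by omega
      rw [this]; exact hPM
    | succ d ih =>
      have hlt : m < l.length := by omega
      have : l.take (m + 1) = l.take m ++ [l[m]] := (List.take_concat_get' l m hlt).symm
      refine hp _ l[m] ?_
      rw [← this]
      exact ih (m + 1) (by omega)
  have hpre : ∀ μ : List V, μ <+: l → μ = l.take μ.length ∧ μ.length ≤ l.length := fun μ h =>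
    ⟨List.prefix_iff_eq_take.1 h, h.length_le⟩
  have hlenM : ∀ ν ∈ BY, ν <+: l → ν.length ≤ M := by
    intro ν hν hνl
    obtain ⟨h1, h2⟩ := hpre ν hνl
    by_contra hlt
    push Not at hlt
    refine hgt _ hlt h2 ?_
    change l.take ν.length ∈ BY
    rw [← h1]; exact hν
  have htl : (l.take M).length = M := by simp [hMl]
  refine ⟨l.take M, hPM, List.take_prefix _ _, ?_, ?_, ?_⟩
  · intro x hx hxB
    have := hlenM _ hxB hx
    simp [hMl] at this
  · intro ν hν hνl
    obtain ⟨h1, h2⟩ := hpre ν hνl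
    rw [h1]
    exact List.take_prefix_take_left (hlenM ν hν hνl)
  · intro ν hν
    have e1 : ∑ μ ∈ BY, sgn ν μ * (if μ <+: l then (1 : ℤ) else 0) =
        (if ν <+: l then 1 else 0) -
        ∑ μ ∈ BY, (if (μ ≠ [] ∧ μ.dropLast = ν) ∧ μ <+: l then (1 : ℤ) else 0) := by
      have : (if ν <+: l then (1 : ℤ) else 0) =
          ∑ μ ∈ BY, (if μ = ν then (if μ <+: l then (1 : ℤ) else 0) else 0) := by
        rw [Finset.sum_ite_eq' BY ν, if_pos hν]
      rw [this, ← Finset.sum_sub_distrib]
      refine Finset.sum_congr rfl fun μ _ => ?_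
      unfold sgn
      by_cases c3 : μ <+: l
      · simp only [c3, if_true, and_true, mul_one]
      · simp only [c3, and_false, if_false, mul_zero, ite_self, sub_zero]
    rw [e1]
    by_cases hνl : ν <+: l
    · obtain ⟨h1, h2⟩ := hpre ν hνl
      have hm := hlenM ν hν hνl
      have hmu : ∀ μ : List V, (μ ≠ [] ∧ μ.dropLast = ν) → μ <+: l →
          μ = l.take (ν.length + 1) ∧ ν.length + 1 ≤ l.length := by
        rintro μ ⟨hne, hd⟩ hμ
        obtain ⟨h3, h4⟩ := hpre μ hμ
        have h5 : μ.length = ν.length + 1 := by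
          have := congrArg List.length hd
          rw [List.length_dropLast] at this
          have : μ.length ≠ 0 := by simpa using hne
          omega
        rw [h5] at h3 h4
        exact ⟨h3, h4⟩
      rcases hm.lt_or_eq with hlt | heq
      · have hμB : l.take (ν.length + 1) ∈ BY := hle _ hlt
        have hlt' : ν.length < l.length := by omega
        have hsum : ∑ μ ∈ BY, (if (μ ≠ [] ∧ μ.dropLast = ν) ∧ μ <+: l then (1 : ℤ) else 0) = 1 := by
          rw [Finset.sum_eq_single (l.take (ν.length + 1))]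
          · rw [if_pos]
            refine ⟨⟨?_, ?_⟩, List.take_prefix _ _⟩
            · intro h
              have := congrArg List.length h
              simp at this
              rw [this] at hlt'
              simp at hlt'
            · have : l.take (ν.length + 1) = l.take ν.length ++ [l[ν.length]] :=
                (List.take_concat_get' l _ hlt').symm
              rw [this, List.dropLast_concat, ← h1]
          · intro μ _ hne
            rw [if_neg]
            rintro ⟨h3, h4⟩
            exact hne (hmu μ h3 h4).1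
          · intro h; exact absurd hμB h
        rw [hsum, if_pos hνl, if_neg]
        · rfl
        · intro h
          have := congrArg List.length h
          rw [htl] at this
          omega
      · have hsum : ∑ μ ∈ BY, (if (μ ≠ [] ∧ μ.dropLast = ν) ∧ μ <+: l then (1 : ℤ) else 0) = 0 := by
          refine Finset.sum_eq_zero fun μ hμ => ?_
          rw [if_neg]
          rintro ⟨h3, h4⟩
          obtain ⟨h5, h6⟩ := hmu μ h3 h4
          have := hlenM μ hμ h4
          rw [h5] at this
          simp at this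
          omega
        rw [hsum, if_pos hνl, if_pos]
        · rfl
        · rw [h1, heq]
    · have hsum : ∑ μ ∈ BY, (if (μ ≠ [] ∧ μ.dropLast = ν) ∧ μ <+: l then (1 : ℤ) else 0) = 0 := by
        refine Finset.sum_eq_zero fun μ _ => ?_
        rw [if_neg]
        rintro ⟨⟨h3, h4⟩, h5⟩
        refine hνl ?_
        rw [← h4]
        exact (List.dropLast_prefix μ).trans h5
      rw [hsum, if_neg hνl, if_neg]
      · rfl
      · rintro rfl
        exact hνl (List.take_prefix _ _)

lemma S_mono_prefix {S : List V → Finset V} (hS : ∀ ν x, S ν ⊆ S (ν ++ [x])) {ν μ : List V}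
    (h : ν <+: μ) : S ν ⊆ S μ := by
  obtain ⟨t, rfl⟩ := h
  induction t using List.reverseRecOn with
  | nil => simp
  | append_singleton t x ih =>
    rw [← List.append_assoc]
    exact ih.trans (hS _ _)

open Classical in
theorem disc_bound {T : Type} [Fintype T] (hBF : BeckFiala) (G : SimpleGraph V)
    (p q r kk Bm : ℕ) (φ : (Fin p → V) → (Fin q → V) → Prop) (A0 : Finset V) (κ : V → List V)
    (B : V → Finset (List V)) (S : List V → Finset V)
    (hκ : ∀ a ∈ A0, (κ a).length ≤ kk) (hB0 : ∀ b, [] ∈ B b)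
    (hBp : ∀ b ν x, ν ++ [x] ∈ B b → ν ∈ B b) (hBc : ∀ b, (B b).card ≤ Bm)
    (hS : ∀ ν x, S ν ⊆ S (ν ++ [x]))
    (hsepS : ∀ a ∈ A0, ∀ b, ∀ ν, ν <+: κ a → ν ∈ B b →
      (∀ x, ν ++ [x] <+: κ a → ν ++ [x] ∉ B b) → ¬ Near G ((S ν : Set V)ᶜ) r a b)
    (tp : (Fin p → List V) → (Fin p → V) → T)
    (htp : ∀ N : Fin p → List V, (∀ i, (N i).length ≤ kk) → ∀ x x' y, tp N x = tp N x' →
      (∀ i j, ¬ Near G ({v | ∃ l, v ∈ S (N l)}ᶜ) r (x i) (y j)) →
      (∀ i j, ¬ Near G ({v | ∃ l, v ∈ S (N l)}ᶜ) r (x' i) (y j)) → (φ x y ↔ φ x' y))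
    (X : Finset (Fin p → V)) (hX : ∀ x ∈ X, ∀ i, x i ∈ A0) :
    ∃ χ : (Fin p → V) → ℤ, (∀ x, χ x = 1 ∨ χ x = -1) ∧
      ∀ y, |∑ x ∈ X.filter (fun x => φ x y), χ x| ≤
        ((q * Bm + 1) ^ (2 * p) * Fintype.card T *
          (2 * ((kk + 1) ^ p * 2 ^ p * Fintype.card T)) : ℕ) := by
  -- the family for Beck-Fiala
  set NN : Finset (List V) := A0.biUnion (fun a => (κ a).inits.toFinset) with hNN
  set nd : (Fin p → List V) → (Fin p → Bool) → Fin p → List V :=
    fun M e i => if e i then (M i).dropLast else M i with hnd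
  set 𝒜 : (Fin p → List V) × (Fin p → Bool) × T → Finset (Fin p → V) :=
    fun ι => X.filter (fun x => (∀ i, ι.1 i <+: κ (x i)) ∧ tp (nd ι.1 ι.2.1) x = ι.2.2) with h𝒜
  set I : Finset ((Fin p → List V) × (Fin p → Bool) × T) :=
    (Fintype.piFinset (fun _ => NN)) ×ˢ (Finset.univ ×ˢ Finset.univ) with hI
  set D := (kk + 1) ^ p * 2 ^ p * Fintype.card T with hD
  obtain ⟨χ, hχ, hbf⟩ := hBF _ _ X I 𝒜 D (by
    intro x hx
    suffices hkey : (I.filter (fun i => x ∈ 𝒜 i)).card ≤ D by convert hkey
    have hsub : I.filter (fun i => x ∈ 𝒜 i) ⊆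
        (Fintype.piFinset (fun i => (κ (x i)).inits.toFinset)) ×ˢ
          ((Finset.univ : Finset (Fin p → Bool)) ×ˢ (Finset.univ : Finset T)) := by
      rintro ⟨M, e, τ⟩ hm
      rw [Finset.mem_filter] at hm
      have h2 : x ∈ X.filter (fun x => (∀ i, M i <+: κ (x i)) ∧ tp (nd M e) x = τ) := hm.2
      rw [Finset.mem_filter] at h2
      simp only [Finset.mem_product, Fintype.mem_piFinset, List.mem_toFinset, List.mem_inits,
        Finset.mem_univ, and_true]
      exact h2.2.1
    refine (Finset.card_le_card hsub).trans ?_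
    rw [Finset.card_product, Finset.card_product, Fintype.card_piFinset, Finset.card_univ,
      Finset.card_univ, Fintype.card_fun, Fintype.card_bool, Fintype.card_fin, hD, mul_assoc]
    refine Nat.mul_le_mul_right _ ?_
    calc ∏ i : Fin p, ((κ (x i)).inits.toFinset).card ≤ ∏ _i : Fin p, (kk + 1) := by
          refine Finset.prod_le_prod' fun i _ => ?_
          refine (List.toFinset_card_le _).trans ?_
          rw [List.length_inits]
          have := hκ (x i) (hX x hx i)
          omega
      _ = (kk + 1) ^ p := by simp)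
  refine ⟨χ, hχ, fun y => ?_⟩
  set BY : Finset (List V) := insert [] (Finset.univ.biUnion (fun j => B (y j))) with hBY
  have hBY0 : [] ∈ BY := Finset.mem_insert_self _ _
  have hBYp : ∀ ν x, ν ++ [x] ∈ BY → ν ∈ BY := by
    intro ν x h
    rcases Finset.mem_insert.1 h with h | h
    · simp at h
    · obtain ⟨j, -, hj⟩ := Finset.mem_biUnion.1 h
      exact Finset.mem_insert_of_mem (Finset.mem_biUnion.2 ⟨j, Finset.mem_univ _, hBp _ _ _ hj⟩)
  have hBYc : BY.card ≤ q * Bm + 1 := by
    refine (Finset.card_insert_le _ _).trans (Nat.succ_le_succ ?_)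
    refine (Finset.card_biUnion_le_card_mul _ _ Bm (fun j _ => hBc _)).trans ?_
    simp
  set Sv : (Fin p → List V) → Set V := fun N => {v | ∃ l, v ∈ S (N l)} with hSv
  set Φ : (Fin p → List V) → T → Prop := fun N τ =>
    ∃ x', tp N x' = τ ∧ (∀ i j, ¬ Near G (Sv N)ᶜ r (x' i) (y j)) ∧ φ x' y with hΦ
  set pr : (Fin p → List V) → (Fin p → V) → ℤ := fun M x =>
    ∏ i, (if M i <+: κ (x i) then (1 : ℤ) else 0) with hpr
  -- the identity for one point
  have hid : ∀ x ∈ X, (if φ x y then (1 : ℤ) else 0) =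
      ∑ N ∈ Fintype.piFinset (fun _ : Fin p => BY), ∑ M ∈ Fintype.piFinset (fun _ : Fin p => BY),
        ∑ τ : T, (∏ i, sgn (N i) (M i)) * (if Φ N τ then 1 else 0) *
          (pr M x * (if tp N x = τ then 1 else 0)) := by
    intro x hx
    choose N₀ hN₀B hN₀l hN₀max hN₀pre hN₀sum using
      fun i => last_node (κ (x i)) BY hBY0 hBYp
    have hlen : ∀ i, (N₀ i).length ≤ kk := fun i =>
      (hN₀l i).length_le.trans (hκ _ (hX x hx i))
    have hsep : ∀ i j, ¬ Near G (Sv N₀)ᶜ r (x i) (y j) := by
      intro i j hn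
      obtain ⟨ν', h1, h2, h3, -, -⟩ := last_node (κ (x i)) (B (y j)) (hB0 _) (hBp _)
      refine hsepS (x i) (hX x hx i) (y j) ν' h2 h1 h3 (hn.mono le_rfl ?_)
      have hν' : ν' <+: N₀ i := hN₀pre i ν' (Finset.mem_insert_of_mem
        (Finset.mem_biUnion.2 ⟨j, Finset.mem_univ _, h1⟩)) h2
      intro v hv hvS
      exact hv ⟨i, S_mono_prefix hS hν' hvS⟩
    have hΦφ : Φ N₀ (tp N₀ x) ↔ φ x y := by
      constructor
      · rintro ⟨x', h1, h2, h3⟩
        exact (htp N₀ hlen x x' y h1.symm hsep h2).2 h3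
      · intro h
        exact ⟨x, rfl, hsep, h⟩
    have hN₀mem : N₀ ∈ Fintype.piFinset (fun _ : Fin p => BY) :=
      Fintype.mem_piFinset.2 hN₀B
    have hstep : ∀ N ∈ Fintype.piFinset (fun _ : Fin p => BY),
        ∑ M ∈ Fintype.piFinset (fun _ : Fin p => BY),
        ∑ τ : T, (∏ i, sgn (N i) (M i)) * (if Φ N τ then 1 else 0) *
          (pr M x * (if tp N x = τ then 1 else 0)) =
        (if N = N₀ then (1 : ℤ) else 0) * (if Φ N (tp N x) then 1 else 0) := by
      intro N hN
      have h1 : ∀ M : Fin p → List V,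
          ∑ τ : T, (∏ i, sgn (N i) (M i)) * (if Φ N τ then (1 : ℤ) else 0) *
          (pr M x * (if tp N x = τ then 1 else 0)) =
          (∏ i, sgn (N i) (M i) * (if M i <+: κ (x i) then (1 : ℤ) else 0)) *
            (if Φ N (tp N x) then 1 else 0) := by
        intro M
        rw [Finset.sum_eq_single (tp N x)]
        · rw [if_pos (rfl : tp N x = tp N x), mul_one, Finset.prod_mul_distrib]
          ring
        · intro τ _ hτ
          rw [if_neg (show ¬ tp N x = τ from fun h => hτ h.symm)]
          ring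
        · intro h; exact absurd (Finset.mem_univ _) h
      rw [Finset.sum_congr rfl (fun M _ => h1 M), ← Finset.sum_mul]
      congr 1
      rw [← Finset.prod_univ_sum (fun _ : Fin p => BY)
        (fun i μ => sgn (N i) μ * (if μ <+: κ (x i) then (1 : ℤ) else 0))]
      rw [Finset.prod_congr rfl (fun i _ => hN₀sum i (N i) (Fintype.mem_piFinset.1 hN i))]
      by_cases hNN : N = N₀
      · simp [hNN]
      · rw [if_neg hNN]
        obtain ⟨i, hi⟩ := Function.ne_iff.1 hNN
        exact Finset.prod_eq_zero (Finset.mem_univ i) (by rw [if_neg hi])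
    rw [Finset.sum_congr rfl hstep, Finset.sum_eq_single N₀]
    · rw [if_pos rfl, one_mul]
      simp only [hΦφ]
    · intro N _ hne
      rw [if_neg hne, zero_mul]
    · intro h; exact absurd hN₀mem h
  -- one term
  have hterm : ∀ N M : Fin p → List V, ∀ τ : T,
      |(∏ i, sgn (N i) (M i)) * (if Φ N τ then (1 : ℤ) else 0) *
        ∑ x ∈ X, χ x * (pr M x * (if tp N x = τ then 1 else 0))| ≤ 2 * (D : ℤ) := by
    intro N M τ
    by_cases hz : ∏ i, sgn (N i) (M i) = 0
    · rw [hz]; simp
    · have habs : |(∏ i, sgn (N i) (M i)) * (if Φ N τ then (1 : ℤ) else 0)| ≤ 1 := by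
        rw [abs_mul, Finset.abs_prod]
        have h1 : ∏ i, |sgn (N i) (M i)| ≤ 1 :=
          Finset.prod_le_one (fun i _ => abs_nonneg _) (fun i _ => sgn_abs_le _ _)
        have h2 : |(if Φ N τ then (1 : ℤ) else 0)| ≤ 1 := by split_ifs <;> simp
        exact mul_le_one₀ h1 (abs_nonneg _) h2
      have hsum : |∑ x ∈ X, χ x * (pr M x * (if tp N x = τ then 1 else 0))| ≤ 2 * (D : ℤ) := by
        by_cases hM : M ∈ Fintype.piFinset (fun _ : Fin p => NN)
        · set e : Fin p → Bool := fun i => decide (N i ≠ M i) with he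
          have hN : nd M e = N := by
            funext i
            simp only [hnd, he]
            by_cases h : N i = M i
            · simp [h]
            · simp only [ne_eq, h, not_false_eq_true, decide_true, if_true]
              by_contra hne
              refine hz (Finset.prod_eq_zero (Finset.mem_univ i) ?_)
              exact sgn_eq_zero (fun h' => h h'.symm) hne
          have h1 := hbf (M, e, τ) (by simp [hI, hM])
          have h2 : ∑ x ∈ X.filter (fun x => x ∈ 𝒜 (M, e, τ)), χ x =
              ∑ x ∈ X, χ x * (pr M x * (if tp N x = τ then 1 else 0)) := by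
            rw [Finset.sum_filter]
            refine Finset.sum_congr rfl fun x hx => ?_
            simp only [h𝒜, hN, Finset.mem_filter, hx, true_and, hpr]
            by_cases c1 : ∀ i, M i <+: κ (x i)
            · rw [Finset.prod_eq_one (fun i _ => by rw [if_pos (c1 i)])]
              by_cases c2 : tp N x = τ
              · simp [c1, c2]
              · simp [c2]
            · have : ∏ i, (if M i <+: κ (x i) then (1 : ℤ) else 0) = 0 := by
                push Not at c1
                obtain ⟨i, hi⟩ := c1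
                exact Finset.prod_eq_zero (Finset.mem_univ i) (by rw [if_neg hi])
              rw [this, if_neg (fun h => c1 h.1)]
              ring
          rw [← h2]
          convert h1
        · have h2 : ∑ x ∈ X, χ x * (pr M x * (if tp N x = τ then 1 else 0)) = 0 := by
            refine Finset.sum_eq_zero fun x hx => ?_
            have : pr M x = 0 := by
              rw [Fintype.mem_piFinset] at hM
              push Not at hM
              obtain ⟨i, hi⟩ := hM
              refine Finset.prod_eq_zero (Finset.mem_univ i) ?_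
              rw [if_neg]
              intro h
              refine hi (Finset.mem_biUnion.2 ⟨x i, hX x hx i, ?_⟩)
              rw [List.mem_toFinset, List.mem_inits]
              exact h
            rw [this]; ring
          rw [h2]
          simp
      rw [abs_mul]
      calc _ ≤ 1 * |∑ x ∈ X, χ x * (pr M x * (if tp N x = τ then 1 else 0))| :=
            mul_le_mul_of_nonneg_right habs (abs_nonneg _)
        _ ≤ 2 * (D : ℤ) := by rw [one_mul]; exact hsum
  -- the sum
  have hsum : ∑ x ∈ X.filter (fun x => φ x y), χ x =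
      ∑ N ∈ Fintype.piFinset (fun _ : Fin p => BY), ∑ M ∈ Fintype.piFinset (fun _ : Fin p => BY),
        ∑ τ : T, (∏ i, sgn (N i) (M i)) * (if Φ N τ then 1 else 0) *
          ∑ x ∈ X, χ x * (pr M x * (if tp N x = τ then 1 else 0)) := by
    rw [Finset.sum_filter]
    have h1 : ∀ x ∈ X, (if φ x y then χ x else 0) =
      ∑ N ∈ Fintype.piFinset (fun _ : Fin p => BY), ∑ M ∈ Fintype.piFinset (fun _ : Fin p => BY),
        ∑ τ : T, (∏ i, sgn (N i) (M i)) * (if Φ N τ then 1 else 0) *
          (χ x * (pr M x * (if tp N x = τ then 1 else 0))) := by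
      intro x hx
      have : (if φ x y then χ x else 0) = χ x * (if φ x y then (1 : ℤ) else 0) := by
        split_ifs <;> simp
      rw [this, hid x hx, Finset.mul_sum]
      refine Finset.sum_congr rfl fun N _ => ?_
      rw [Finset.mul_sum]
      refine Finset.sum_congr rfl fun M _ => ?_
      rw [Finset.mul_sum]
      refine Finset.sum_congr rfl fun τ _ => ?_
      ring
    rw [Finset.sum_congr rfl h1, Finset.sum_comm]
    refine Finset.sum_congr rfl fun N _ => ?_
    rw [Finset.sum_comm]
    refine Finset.sum_congr rfl fun M _ => ?_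
    rw [Finset.sum_comm]
    refine Finset.sum_congr rfl fun τ _ => ?_
    rw [Finset.mul_sum]
  rw [hsum]
  have hb1 : ∀ N M : Fin p → List V,
      |∑ τ : T, (∏ i, sgn (N i) (M i)) * (if Φ N τ then (1 : ℤ) else 0) *
          ∑ x ∈ X, χ x * (pr M x * (if tp N x = τ then 1 else 0))| ≤
        (Fintype.card T : ℤ) * (2 * (D : ℤ)) := by
    intro N M
    refine (Finset.abs_sum_le_sum_abs _ _).trans ?_
    refine (Finset.sum_le_card_nsmul _ _ _ (fun τ _ => hterm N M τ)).trans ?_
    simp
  have hcp : ((Fintype.piFinset (fun _ : Fin p => BY)).card : ℤ) ≤ ((q * Bm + 1 : ℕ) : ℤ) ^ p := by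
    rw [Fintype.card_piFinset]
    simp only [Finset.prod_const, Finset.card_univ, Fintype.card_fin]
    exact_mod_cast Nat.pow_le_pow_left hBYc p
  have hnn : (0 : ℤ) ≤ (Fintype.card T : ℤ) * (2 * (D : ℤ)) := by positivity
  have hb2 : ∀ N : Fin p → List V,
      |∑ M ∈ Fintype.piFinset (fun _ : Fin p => BY),
        ∑ τ : T, (∏ i, sgn (N i) (M i)) * (if Φ N τ then (1 : ℤ) else 0) *
          ∑ x ∈ X, χ x * (pr M x * (if tp N x = τ then 1 else 0))| ≤
        ((q * Bm + 1 : ℕ) : ℤ) ^ p * ((Fintype.card T : ℤ) * (2 * (D : ℤ))) := by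
    intro N
    refine (Finset.abs_sum_le_sum_abs _ _).trans ?_
    refine (Finset.sum_le_card_nsmul _ _ _ (fun M _ => hb1 N M)).trans ?_
    rw [nsmul_eq_mul]
    exact mul_le_mul_of_nonneg_right hcp hnn
  refine (Finset.abs_sum_le_sum_abs _ _).trans ?_
  refine (Finset.sum_le_card_nsmul _ _ _ (fun N _ => hb2 N)).trans ?_
  rw [nsmul_eq_mul]
  calc _ ≤ ((q * Bm + 1 : ℕ) : ℤ) ^ p *
        (((q * Bm + 1 : ℕ) : ℤ) ^ p * ((Fintype.card T : ℤ) * (2 * (D : ℤ)))) := by
        refine mul_le_mul_of_nonneg_right hcp ?_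
        positivity
    _ = _ := by
        push_cast
        rw [hD]
        push_cast
        ring

end Pool.Agent.Helper28.HD
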