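import Mathlib
import Pool.Agent.Helper28.HD.Defs

/-!
# Module 7: Ehrenfeucht–Fraïssé games in one graph and Gaifman-type separation
-/

namespace Pool.Agent.Helper28.HD

open SimpleGraph

variable {V : Type}

/-- The relation `L` is an atomic partial isomorphism. -/
def Atom (G : SimpleGraph V) (L : Set (V × V)) : Prop :=
  ∀ p ∈ L, ∀ q ∈ L, (p.1 = q.1 ↔ p.2 = q.2) ∧ (G.Adj p.1 q.1 ↔ G.Adj p.2 q.2)

/-- Duplicator wins the `k`-round game on the position `L`, where the moves on the left are in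
`M` and those on the right in `M'`. -/
def EF (G : SimpleGraph V) (M M' : Set V) : ℕ → Set (V × V) → Prop
  | 0, L => Atom G L
  | k + 1, L => Atom G L ∧ (∀ c ∈ M, ∃ c' ∈ M', EF G M M' k (insert (c, c') L)) ∧
      (∀ c' ∈ M', ∃ c ∈ M, EF G M M' k (insert (c, c') L))

variable {G : SimpleGraph V} {M M' M'' : Set V} {k l : ℕ} {L L' : Set (V × V)} {S : Set V}

lemma EF.atom : ∀ {k : ℕ} {L : Set (V × V)}, EF G M M' k L → Atom G L
  | 0, _, h => h
  | _ + 1, _, h => h.1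

lemma Atom.mono (h : Atom G L) (hL : L' ⊆ L) : Atom G L' :=
  fun p hp q hq => h p (hL hp) q (hL hq)

lemma EF.mono_set : ∀ {k : ℕ} {L L' : Set (V × V)}, EF G M M' k L → L' ⊆ L → EF G M M' k L'
  | 0, _, _, h, hL => Atom.mono h hL
  | k + 1, L, L', h, hL => by
    refine ⟨Atom.mono h.1 hL, fun c hc => ?_, fun c' hc' => ?_⟩
    · obtain ⟨c', hc', h1⟩ := h.2.1 c hc
      exact ⟨c', hc', h1.mono_set (Set.insert_subset_insert hL)⟩
    · obtain ⟨c, hc, h1⟩ := h.2.2 c' hc'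
      exact ⟨c, hc, h1.mono_set (Set.insert_subset_insert hL)⟩

lemma EF.pred : ∀ {k : ℕ} {L : Set (V × V)}, EF G M M' (k + 1) L → EF G M M' k L
  | 0, _, h => h.1
  | k + 1, L, h => by
    refine ⟨h.1, fun c hc => ?_, fun c' hc' => ?_⟩
    · obtain ⟨c', hc', h1⟩ := h.2.1 c hc
      exact ⟨c', hc', h1.pred⟩
    · obtain ⟨c, hc, h1⟩ := h.2.2 c' hc'
      exact ⟨c, hc, h1.pred⟩

lemma EF.mono_k (h : EF G M M' l L) (hk : k ≤ l) : EF G M M' k L := by
  induction hk with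
  | refl => exact h
  | step _ ih => exact ih h.pred

lemma Atom.swap (h : Atom G L) : Atom G (Prod.swap ⁻¹' L) := by
  intro p hp q hq
  have := h p.swap hp q.swap hq
  exact ⟨this.1.symm, this.2.symm⟩

lemma swap_insert (c c' : V) (L : Set (V × V)) :
    Prod.swap ⁻¹' (insert (c, c') L) = insert (c', c) (Prod.swap ⁻¹' L) := by
  ext ⟨x, y⟩
  simp [Prod.swap, and_comm]

lemma EF.swap : ∀ {k : ℕ} {L : Set (V × V)}, EF G M M' k L → EF G M' M k (Prod.swap ⁻¹' L)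
  | 0, _, h => Atom.swap h
  | k + 1, L, h => by
    refine ⟨Atom.swap h.1, fun c hc => ?_, fun c' hc' => ?_⟩
    · obtain ⟨c', hc', h1⟩ := h.2.2 c hc
      exact ⟨c', hc', by rw [← swap_insert]; exact h1.swap⟩
    · obtain ⟨c, hc, h1⟩ := h.2.1 c' hc'
      exact ⟨c, hc, by rw [← swap_insert]; exact h1.swap⟩

lemma swap_swap_set (L : Set (V × V)) : Prod.swap ⁻¹' (Prod.swap ⁻¹' L) = L := by
  ext ⟨x, y⟩; simp

lemma EF.refl : ∀ {k : ℕ} {L : Set (V × V)}, (∀ p ∈ L, p.1 = p.2) → EF G M M k L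
  | 0, L, h => by
    intro p hp q hq
    rw [h p hp, h q hq]; simp
  | k + 1, L, h => by
    have h' : ∀ c, ∀ p ∈ insert (c, c) L, p.1 = p.2 := by
      intro c p hp
      rcases hp with rfl | hp
      · rfl
      · exact h p hp
    refine ⟨?_, fun c hc => ⟨c, hc, EF.refl (h' c)⟩, fun c hc => ⟨c, hc, EF.refl (h' c)⟩⟩
    intro p hp q hq
    rw [h p hp, h q hq]; simp

lemma EF.trans : ∀ {k : ℕ} {L₁ L₂ L₃ : Set (V × V)}, EF G M M' k L₁ → EF G M' M'' k L₂ →
    (∀ p ∈ L₃, ∃ y, (p.1, y) ∈ L₁ ∧ (y, p.2) ∈ L₂) → EF G M M'' k L₃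
  | 0, L₁, L₂, L₃, h₁, h₂, h => by
    intro p hp q hq
    obtain ⟨y, hy1, hy2⟩ := h p hp
    obtain ⟨z, hz1, hz2⟩ := h q hq
    have e1 := h₁ _ hy1 _ hz1
    have e2 := h₂ _ hy2 _ hz2
    exact ⟨e1.1.trans e2.1, e1.2.trans e2.2⟩
  | k + 1, L₁, L₂, L₃, h₁, h₂, h => by
    refine ⟨?_, fun c hc => ?_, fun c hc => ?_⟩
    · intro p hp q hq
      obtain ⟨y, hy1, hy2⟩ := h p hp
      obtain ⟨z, hz1, hz2⟩ := h q hq
      have e1 := h₁.1 _ hy1 _ hz1
      have e2 := h₂.1 _ hy2 _ hz2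
      exact ⟨e1.1.trans e2.1, e1.2.trans e2.2⟩
    · obtain ⟨c', hc', h3⟩ := h₁.2.1 c hc
      obtain ⟨c'', hc'', h4⟩ := h₂.2.1 c' hc'
      refine ⟨c'', hc'', h3.trans h4 ?_⟩
      rintro p (rfl | hp)
      · exact ⟨c', Set.mem_insert _ _, Set.mem_insert _ _⟩
      · obtain ⟨y, hy1, hy2⟩ := h p hp
        exact ⟨y, Set.mem_insert_of_mem _ hy1, Set.mem_insert_of_mem _ hy2⟩
    · obtain ⟨c', hc', h3⟩ := h₂.2.2 c hc
      obtain ⟨c'', hc'', h4⟩ := h₁.2.2 c' hc'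
      refine ⟨c'', hc'', h4.trans h3 ?_⟩
      rintro p (rfl | hp)
      · exact ⟨c', Set.mem_insert _ _, Set.mem_insert _ _⟩
      · obtain ⟨y, hy1, hy2⟩ := h p hp
        exact ⟨y, Set.mem_insert_of_mem _ hy1, Set.mem_insert_of_mem _ hy2⟩

/-- Short walks inside `M` are transferred by the game. -/
lemma EF.near : ∀ {a g : ℕ} {L : Set (V × V)} {d d' c c' : V}, EF G M M' g L → a ≤ g →
    (d, d') ∈ L → (c, c') ∈ L → d' ∈ M' → Near G M a d c → Near G M' a d' c' := by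
  intro a
  induction a with
  | zero =>
    intro g L d d' c c' h _ hd hc hd' hn
    obtain ⟨rfl, -⟩ := near_zero.1 hn
    have := ((h.atom _ hd _ hc).1).1 rfl
    simp only at this
    subst this
    exact near_refl hd'
  | succ a ih =>
    intro g L d d' c c' h hag hd hc hd' hn
    obtain ⟨p, hp, hM⟩ := hn
    rcases p with _ | ⟨hadj, p⟩
    · have := ((h.atom _ hd _ hc).1).1 rfl
      simp only at this
      subst this
      exact near_refl hd'
    · rename_i x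
      obtain ⟨g, rfl⟩ : ∃ g', g = g' + 1 := ⟨g - 1, by omega⟩
      have hx : x ∈ M := hM x (by simp)
      obtain ⟨x', hx', h1⟩ := h.2.1 x hx
      have hxL : (x, x') ∈ insert (x, x') L := Set.mem_insert _ _
      have h2 : Near G M' a x' c' := by
        refine ih h1 (by omega) hxL (Set.mem_insert_of_mem _ hc) hx' ⟨p, ?_, ?_⟩
        · simp only [Walk.length_cons] at hp; omega
        · intro y hy
          exact hM y (by simp [hy])
      have h3 : G.Adj d' x' := ((h1.atom _ (Set.mem_insert_of_mem _ hd) _ hxL).2).1 hadj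
      have := (near_of_adj h3 hd' hx').trans h2
      rwa [add_comm] at this

/-- The ball of radius `ρ` around the set `D` in `G - S`. -/
def Ball (G : SimpleGraph V) (S : Set V) (ρ : ℕ) (D : Set V) : Set V :=
  {x | ∃ d ∈ D, Near G Sᶜ ρ d x}

lemma near_ball {ρ a : ℕ} {D : Set V} {d c : V} (h : Near G Sᶜ a d c) (hd : d ∈ D) (ha : a ≤ ρ) :
    Near G (Ball G S ρ D) a d c := by
  obtain ⟨p, hp, hx⟩ := h
  exact ⟨p, hp, fun y hy => ⟨d, hd, (near_of_mem_support p hp hx hy).mono ha subset_rfl⟩⟩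

lemma ball_subset_compl {ρ : ℕ} {D : Set V} : Ball G S ρ D ⊆ Sᶜ := by
  rintro x ⟨d, -, h⟩
  exact h.right_mem

/-- The game can be restricted to smaller balls around points of the position. -/
lemma EF.restrict {ρ : ℕ} {L₁ : Set (V × V)} (hM' : M' ⊆ Sᶜ) (hM2 : M ⊆ Sᶜ)
    (h1 : Ball G S ρ (Prod.fst '' L₁) ⊆ M) (h2 : Ball G S ρ (Prod.snd '' L₁) ⊆ M')
    (hL : ∀ p ∈ L₁, p.1 ∈ M ∧ p.2 ∈ M') :
    ∀ {h : ℕ} {L : Set (V × V)}, L₁ ⊆ L → EF G M M' (h + ρ) L →
      EF G (Ball G S ρ (Prod.fst '' L₁)) (Ball G S ρ (Prod.snd '' L₁)) h L := by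
  intro h
  induction h with
  | zero => intro L _ h; exact h.atom
  | succ h ih =>
    intro L hLL hEF
    rw [show h + 1 + ρ = (h + ρ) + 1 by ring] at hEF
    refine ⟨hEF.1, fun c hc => ?_, fun c' hc' => ?_⟩
    · obtain ⟨c', hc', h3⟩ := hEF.2.1 c (h1 hc)
      refine ⟨c', ?_, ih (hLL.trans (Set.subset_insert _ _)) h3⟩
      obtain ⟨d, ⟨p, hp, rfl⟩, hn⟩ := hc
      have hn' : Near G M ρ p.1 c :=
        (near_ball hn (Set.mem_image_of_mem _ hp) le_rfl).mono le_rfl h1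
      have := h3.near (d := p.1) (d' := p.2) (by omega) (Set.mem_insert_of_mem _ (hLL hp))
        (Set.mem_insert _ _) (hL p hp).2 hn'
      exact ⟨p.2, Set.mem_image_of_mem _ hp, this.mono le_rfl hM'⟩
    · obtain ⟨c, hc, h3⟩ := hEF.2.2 c' (h2 hc')
      refine ⟨c, ?_, ih (hLL.trans (Set.subset_insert _ _)) h3⟩
      obtain ⟨d, ⟨p, hp, rfl⟩, hn⟩ := hc'
      have hn' : Near G M' ρ p.2 c' :=
        (near_ball hn (Set.mem_image_of_mem _ hp) le_rfl).mono le_rfl h2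
      have := h3.swap.near (d := p.2) (d' := p.1) (c := c') (c' := c) (by omega)
        (Set.mem_insert_of_mem _ (hLL hp)) (Set.mem_insert _ _) (hL p hp).1 hn'
      exact ⟨p.1, Set.mem_image_of_mem _ hp, this.mono le_rfl hM2⟩

/-- Disjoint unions. -/
lemma EF.union {N₁ N₁' N₂ N₂' : Set V} {E : Set (V × V)}
    (hN : ∀ x ∈ N₁, ∀ y ∈ N₂, x ≠ y ∧ ¬ G.Adj x y)
    (hN' : ∀ x ∈ N₁', ∀ y ∈ N₂', x ≠ y ∧ ¬ G.Adj x y) :
    ∀ {k : ℕ} {La Lb : Set (V × V)}, (∀ p ∈ La, p.1 ∈ N₁ ∧ p.2 ∈ N₁') →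
      (∀ p ∈ Lb, p.1 ∈ N₂ ∧ p.2 ∈ N₂') → EF G N₁ N₁' k (La ∪ E) → EF G N₂ N₂' k (Lb ∪ E) →
      EF G (N₁ ∪ N₂) (N₁' ∪ N₂') k (La ∪ Lb ∪ E) := by
  intro k
  induction k with
  | zero =>
    intro La Lb ha hb h1 h2 p hp q hq
    have h1 : Atom G (La ∪ E) := h1
    have h2 : Atom G (Lb ∪ E) := h2
    rcases hp with (hp | hp) | hp <;> rcases hq with (hq | hq) | hq
    · exact h1 p (Or.inl hp) q (Or.inl hq)
    · have e1 := hN p.1 (ha p hp).1 q.1 (hb q hq).1
      have e2 := hN' p.2 (ha p hp).2 q.2 (hb q hq).2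
      exact ⟨by simp [e1.1, e2.1], by simp [e1.2, e2.2]⟩
    · exact h1 p (Or.inl hp) q (Or.inr hq)
    · have e1 := hN q.1 (ha q hq).1 p.1 (hb p hp).1
      have e2 := hN' q.2 (ha q hq).2 p.2 (hb p hp).2
      exact ⟨by simp [e1.1.symm, e2.1.symm], by
        rw [G.adj_comm p.1, G.adj_comm p.2]; simp [e1.2, e2.2]⟩
    · exact h2 p (Or.inl hp) q (Or.inl hq)
    · exact h2 p (Or.inl hp) q (Or.inr hq)
    · exact h1 p (Or.inr hp) q (Or.inl hq)
    · exact h2 p (Or.inr hp) q (Or.inl hq)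
    · exact h1 p (Or.inr hp) q (Or.inr hq)
  | succ k ih =>
    intro La Lb ha hb h1 h2
    have e1 : ∀ c c' : V, insert (c, c') (La ∪ E) = insert (c, c') La ∪ E :=
      fun c c' => (Set.insert_union).symm
    have e2 : ∀ c c' : V, insert (c, c') (Lb ∪ E) = insert (c, c') Lb ∪ E :=
      fun c c' => (Set.insert_union).symm
    have e3 : ∀ c c' : V, insert (c, c') (La ∪ Lb ∪ E) = insert (c, c') La ∪ Lb ∪ E :=
      fun c c' => by rw [Set.insert_union, Set.insert_union]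
    have e4 : ∀ c c' : V, insert (c, c') (La ∪ Lb ∪ E) = La ∪ insert (c, c') Lb ∪ E :=
      fun c c' => by rw [Set.union_insert, Set.insert_union]
    refine ⟨(ih ha hb h1.pred h2.pred).atom, ?_, ?_⟩
    · rintro c (hc | hc)
      · obtain ⟨c', hc', h3⟩ := h1.2.1 c hc
        refine ⟨c', Or.inl hc', ?_⟩
        rw [e3]
        refine ih ?_ hb (by rw [← e1]; exact h3) h2.pred
        rintro p (rfl | hp)
        · exact ⟨hc, hc'⟩
        · exact ha p hp
      · obtain ⟨c', hc', h3⟩ := h2.2.1 c hc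
        refine ⟨c', Or.inr hc', ?_⟩
        rw [e4]
        refine ih ha ?_ h1.pred (by rw [← e2]; exact h3)
        rintro p (rfl | hp)
        · exact ⟨hc, hc'⟩
        · exact hb p hp
    · rintro c' (hc' | hc')
      · obtain ⟨c, hc, h3⟩ := h1.2.2 c' hc'
        refine ⟨c, Or.inl hc, ?_⟩
        rw [e3]
        refine ih ?_ hb (by rw [← e1]; exact h3) h2.pred
        rintro p (rfl | hp)
        · exact ⟨hc, hc'⟩
        · exact ha p hp
      · obtain ⟨c, hc, h3⟩ := h2.2.2 c' hc'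
        refine ⟨c, Or.inr hc, ?_⟩
        rw [e4]
        refine ih ha ?_ h1.pred (by rw [← e2]; exact h3)
        rintro p (rfl | hp)
        · exact ⟨hc, hc'⟩
        · exact hb p hp

/-- The diagonal over `S`. -/
def Diag (S : Set V) : Set (V × V) := {p | p.1 = p.2 ∧ p.1 ∈ S}

lemma swap_diag (S : Set V) : Prod.swap ⁻¹' (Diag S) = Diag S := by
  ext ⟨x, y⟩
  simp only [Diag, Set.mem_preimage, Prod.swap_prod_mk, Set.mem_ofPred_eq]
  constructor
  · rintro ⟨rfl, h⟩; exact ⟨rfl, h⟩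
  · rintro ⟨rfl, h⟩; exact ⟨rfl, h⟩

lemma EF.compl_of_univ : ∀ {k : ℕ} {L : Set (V × V)}, EF G Set.univ Set.univ k (L ∪ Diag S) →
    EF G Sᶜ Sᶜ k (L ∪ Diag S)
  | 0, _, h => h
  | k + 1, L, h => by
    refine ⟨h.1, fun c hc => ?_, fun c' hc' => ?_⟩
    · obtain ⟨c', -, h1⟩ := h.2.1 c trivial
      refine ⟨c', fun hS => hc ?_, ?_⟩
      · have := ((h1.atom (c, c') (Set.mem_insert _ _) (c', c')
          (Set.mem_insert_of_mem _ (Or.inr ⟨rfl, hS⟩))).1).2 rfl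
        simp only at this
        rw [this]; exact hS
      · rw [← Set.insert_union] at h1 ⊢
        exact h1.compl_of_univ
    · obtain ⟨c, -, h1⟩ := h.2.2 c' trivial
      refine ⟨c, fun hS => hc' ?_, ?_⟩
      · have := ((h1.atom (c, c') (Set.mem_insert _ _) (c, c)
          (Set.mem_insert_of_mem _ (Or.inr ⟨rfl, hS⟩))).1).1 rfl
        simp only at this
        rw [this]; exact hS
      · rw [← Set.insert_union] at h1 ⊢
        exact h1.compl_of_univ

lemma EF.univ_of_compl : ∀ {k : ℕ} {L : Set (V × V)}, EF G Sᶜ Sᶜ k (L ∪ Diag S) →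
    EF G Set.univ Set.univ k (L ∪ Diag S)
  | 0, _, h => h
  | k + 1, L, h => by
    have hins : ∀ c ∈ S, insert (c, c) (L ∪ Diag S) = L ∪ Diag S := by
      intro c hc
      exact Set.insert_eq_of_mem (Or.inr ⟨rfl, hc⟩)
    refine ⟨h.1, fun c _ => ?_, fun c' _ => ?_⟩
    · by_cases hc : c ∈ S
      · refine ⟨c, trivial, ?_⟩
        rw [hins c hc]
        exact h.pred.univ_of_compl
      · obtain ⟨c', -, h1⟩ := h.2.1 c hc
        refine ⟨c', trivial, ?_⟩
        rw [← Set.insert_union] at h1 ⊢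
        exact h1.univ_of_compl
    · by_cases hc : c' ∈ S
      · refine ⟨c', trivial, ?_⟩
        rw [hins c' hc]
        exact h.pred.univ_of_compl
      · obtain ⟨c, -, h1⟩ := h.2.2 c' hc
        refine ⟨c, trivial, ?_⟩
        rw [← Set.insert_union] at h1 ⊢
        exact h1.univ_of_compl

end Pool.Agent.Helper28.HD
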