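import Mathlib

/-!
# MP_364488_co: the definitions of the problem

Classes of finite graphs, nowhere dense classes, set systems defined by partitioned first-order
formulas, discrepancy and hereditary discrepancy.
-/

namespace Pool.Agent.Helper28.HD

open SimpleGraph

/-- A class of finite graphs, given by its members on the vertex sets `Fin n`. -/
abbrev GraphClass : Type := ∀ n : ℕ, SimpleGraph (Fin n) → Prop

/-- A class of graphs is monotone if it is closed under subgraphs (`H ⊑ G` says that `G` has a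
not necessarily induced subgraph isomorphic to `H`; in particular the class is closed under
isomorphism). -/
def IsMonotone (C : GraphClass) : Prop :=
  ∀ (n m : ℕ) (G : SimpleGraph (Fin n)) (H : SimpleGraph (Fin m)), C n G → H ⊑ G → C m H

/-- The vertex number `l` (for `0 ≤ l ≤ r + 1`) on the subdivided edge `p.1 p.2` of `K_t`:
the branch vertex `p.1`, then the `r` subdividing vertices, then the branch vertex `p.2`. -/
def subdivNode (r t : ℕ) (p : {p : Fin t × Fin t // p.1 < p.2}) (l : ℕ) :
    Fin t ⊕ ({p : Fin t × Fin t // p.1 < p.2} × Fin r) :=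
  if l = 0 then .inl p.1.1 else if h : l - 1 < r then .inr (p, ⟨l - 1, h⟩) else .inl p.1.2

/-- The `r`-subdivision of the complete graph `K_t`: every edge is replaced by a path with `r`
inner vertices (and `r + 1` edges). -/
def subdivK (r t : ℕ) : SimpleGraph (Fin t ⊕ ({p : Fin t × Fin t // p.1 < p.2} × Fin r)) :=
  SimpleGraph.fromRel fun x y =>
    ∃ (p : {p : Fin t × Fin t // p.1 < p.2}) (l : ℕ), l ≤ r ∧
      x = subdivNode r t p l ∧ y = subdivNode r t p (l + 1)

/-- A class of graphs is nowhere dense if for every `r ≥ 0` there is `t` such that no member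
contains the `r`-subdivision of `K_t` as a subgraph. -/
def IsNowhereDense (C : GraphClass) : Prop :=
  ∀ r : ℕ, ∃ t : ℕ, ∀ (n : ℕ) (G : SimpleGraph (Fin n)), C n G → ¬ (subdivK r t ⊑ G)

/-- `G ⊨ φ(a, b)` for a partitioned first-order formula `φ(x; y)` in the language of graphs. -/
def Sat {V : Type} (G : SimpleGraph V) {k m : ℕ}
    (φ : FirstOrder.Language.graph.Formula (Fin k ⊕ Fin m)) (a : Fin k → V) (b : Fin m → V) :
    Prop :=
  letI := G.structure
  φ.Realize (Sum.elim a b)

/-- The set system `{ {a ∈ V^k : G ⊨ φ(a, b)} : b ∈ V^m }`. -/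
def setSystem {V : Type} (G : SimpleGraph V) {k m : ℕ}
    (φ : FirstOrder.Language.graph.Formula (Fin k ⊕ Fin m)) : Set (Set (Fin k → V)) :=
  Set.range fun b : Fin m → V => {a : Fin k → V | Sat G φ a b}

open Classical in
/-- The discrepancy of the trace of the set system `𝒮` on the finite set `X`: the least `d` such
that some colouring `χ : X → {1, -1}` satisfies `|∑_{u ∈ S ∩ X} χ u| ≤ d` for all `S ∈ 𝒮`. -/
noncomputable def disc {α : Type} (𝒮 : Set (Set α)) (X : Finset α) : ℕ :=
  sInf {d : ℕ | ∃ χ : α → ℤ, (∀ u, χ u = 1 ∨ χ u = -1) ∧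
    ∀ S ∈ 𝒮, |∑ u ∈ X.filter (· ∈ S), χ u| ≤ d}

/-- The hereditary discrepancy of a set system `𝒮` with finite ground set `⋃₀ 𝒮`: the maximum of
the discrepancies of the traces of `𝒮` on the subsets of the ground set. -/
noncomputable def herdisc {α : Type} (𝒮 : Set (Set α)) : ℕ :=
  sSup {d : ℕ | ∃ X : Finset α, (X : Set α) ⊆ ⋃₀ 𝒮 ∧ d = disc 𝒮 X}

/-- The statement on discrepancy in the problem: for every partitioned formula `φ(x; y)` and every
`ε > 0`, `herdisc (𝒮^φ(G)) = O(|⋃ 𝒮^φ(G)|^ε)` on `C`. -/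
def HasSmallHerdisc (C : GraphClass) : Prop :=
  ∀ (k m : ℕ) (φ : FirstOrder.Language.graph.Formula (Fin k ⊕ Fin m)) (ε : ℝ), 0 < ε →
    ∃ c : ℝ, ∀ (n : ℕ) (G : SimpleGraph (Fin n)), C n G →
      (herdisc (setSystem G φ) : ℝ) ≤ c * ((⋃₀ setSystem G φ).ncard : ℝ) ^ ε

end Pool.Agent.Helper28.HD
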