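import Mathlib
import Pool.Agent.Helper28.HD.EF

/-!
# Gaifman locality over a set `S` of constants, inside one graph, and the separation lemma
-/

namespace Pool.Agent.Helper28.HD

open SimpleGraph

variable {V : Type} {G : SimpleGraph V} {M M' : Set V} {S : Set V}

/-- radii -/
def rad : ℕ → ℕ
  | 0 => 0
  | k + 1 => 3 * (2 * rad k + 1) + rad k

/-- numbers of rounds -/
def rnd (n : ℕ) : ℕ → ℕ
  | 0 => 0
  | k + 1 => n + 1 + 3 * (2 * rad k + 1) + rnd n k + rad k

/-- Local equivalence of the two sides of `L` over `S`. -/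
def Loc (G : SimpleGraph V) (S : Set V) (n k : ℕ) (L : Set (V × V)) : Prop :=
  EF G (Ball G S (rad k) (Prod.fst '' L)) (Ball G S (rad k) (Prod.snd '' L)) (rnd n k)
    (L ∪ Diag S)

lemma fst_image_swap (L : Set (V × V)) : Prod.fst '' (Prod.swap ⁻¹' L) = Prod.snd '' L := by
  ext x
  constructor
  · rintro ⟨⟨a, b⟩, h, rfl⟩
    exact ⟨(b, a), h, rfl⟩
  · rintro ⟨⟨a, b⟩, h, rfl⟩
    exact ⟨(b, a), h, rfl⟩

lemma snd_image_swap (L : Set (V × V)) : Prod.snd '' (Prod.swap ⁻¹' L) = Prod.fst '' L := by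
  ext x
  constructor
  · rintro ⟨⟨a, b⟩, h, rfl⟩
    exact ⟨(b, a), h, rfl⟩
  · rintro ⟨⟨a, b⟩, h, rfl⟩
    exact ⟨(b, a), h, rfl⟩

lemma Loc.swap {n k : ℕ} {L : Set (V × V)} (h : Loc G S n k L) :
    Loc G S n k (Prod.swap ⁻¹' L) := by
  have := EF.swap h
  rw [Set.preimage_union, swap_diag] at this
  rw [Loc, fst_image_swap, snd_image_swap]
  exact this

lemma ball_mono {ρ ρ' : ℕ} {D : Set V} (h : ρ ≤ ρ') : Ball G S ρ D ⊆ Ball G S ρ' D := by
  rintro x ⟨d, hd, hn⟩
  exact ⟨d, hd, hn.mono h subset_rfl⟩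

lemma ball_trans {ρ a : ℕ} {D : Set V} {x y : V} (hx : x ∈ Ball G S ρ D)
    (h : Near G Sᶜ a x y) : y ∈ Ball G S (ρ + a) D := by
  obtain ⟨d, hd, hn⟩ := hx
  exact ⟨d, hd, hn.trans h⟩

lemma ball_singleton_subset {ρ a : ℕ} {D : Set V} {x : V} (hx : x ∈ Ball G S ρ D) :
    Ball G S a {x} ⊆ Ball G S (ρ + a) D := by
  rintro y ⟨d, hd, hn⟩
  have hd : d = x := hd
  subst hd
  exact ball_trans hx hn

lemma mem_ball_self {ρ : ℕ} {D : Set V} {x : V} (hx : x ∈ D) (hS : x ∈ Sᶜ) :
    x ∈ Ball G S ρ D := ⟨x, hx, near_refl hS⟩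

lemma ball_insert {ρ : ℕ} {D : Set V} {x : V} :
    Ball G S ρ (insert x D) = Ball G S ρ D ∪ Ball G S ρ {x} := by
  ext y
  simp only [Ball, Set.mem_insert_iff, exists_eq_or_imp, Set.mem_ofPred_eq, Set.mem_union,
    Set.mem_singleton_iff, exists_eq_left]
  exact or_comm

lemma near_in_ball {ρ ρ' a : ℕ} {D : Set V} {x y : V} (hx : x ∈ Ball G S ρ D)
    (h : Near G Sᶜ a x y) (hρ : ρ + a ≤ ρ') : Near G (Ball G S ρ' D) a x y := by
  obtain ⟨p, hp, hM⟩ := h
  exact ⟨p, hp, fun z hz => ball_mono hρ (ball_trans hx (near_of_mem_support p hp hM hz))⟩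

/-- Play the points of a finite set one after another. -/
lemma EF.play {g : ℕ} {L : Set (V × V)} (Y : Finset V) (hY : ∀ y ∈ Y, y ∈ M')
    (h : EF G M M' (g + Y.card) L) :
    ∃ f : V → V, (∀ y ∈ Y, f y ∈ M) ∧ EF G M M' g (L ∪ {p | ∃ y ∈ Y, p = (f y, y)}) := by
  classical
  induction Y using Finset.induction_on generalizing L with
  | empty => exact ⟨id, by simp, by simpa using h⟩
  | insert y Y hy ih =>
    rw [Finset.card_insert_of_notMem hy, ← add_assoc] at h
    obtain ⟨x, hx, h1⟩ := h.2.2 y (hY y (Finset.mem_insert_self _ _))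
    obtain ⟨f, hf, h2⟩ := ih (fun z hz => hY z (Finset.mem_insert_of_mem hz)) h1
    refine ⟨fun z => if z = y then x else f z, ?_, h2.mono_set ?_⟩
    · intro z hz
      by_cases hzy : z = y
      · simp [hzy, hx]
      · simp only [hzy, if_false]
        exact hf z (Finset.mem_of_mem_insert_of_ne hz hzy)
    · rintro p (hp | ⟨z, hz, rfl⟩)
      · exact Or.inl (Set.mem_insert_of_mem _ hp)
      · by_cases hzy : z = y
        · subst hzy
          left
          simp
        · right
          simp only [hzy, if_false]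
          exact ⟨z, Finset.mem_of_mem_insert_of_ne hz hzy, rfl⟩

lemma Loc.step {n k : ℕ} {L : Set (V × V)} {F : Finset (V × V)} (hF : L = F) (hn : F.card ≤ n)
    (hL : ∀ p ∈ L, p.1 ∈ Sᶜ ∧ p.2 ∈ Sᶜ) (h : Loc G S n (k + 1) L) (c : V) (hc : c ∈ Sᶜ) :
    ∃ c' ∈ Sᶜ, Loc G S n k (insert (c, c') L) := by
  classical
  set D := 2 * rad k + 1 with hD
  set M := Ball G S (rad (k + 1)) (Prod.fst '' L) with hM
  set M' := Ball G S (rad (k + 1)) (Prod.snd '' L) with hM'
  have hr : rad (k + 1) = 3 * D + rad k := rfl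
  have hg : rnd n (k + 1) = n + 1 + 3 * D + rnd n k + rad k := rfl
  have hMS : M ⊆ Sᶜ := ball_subset_compl
  have hMS' : M' ⊆ Sᶜ := ball_subset_compl
  have hLM : ∀ p ∈ L, p.1 ∈ M ∧ p.2 ∈ M' := fun p hp =>
    ⟨mem_ball_self (Set.mem_image_of_mem _ hp) (hL p hp).1,
      mem_ball_self (Set.mem_image_of_mem _ hp) (hL p hp).2⟩
  have h : EF G M M' (rnd n (k + 1)) (L ∪ Diag S) := h
  by_cases hcB : c ∈ Ball G S (3 * D) (Prod.fst '' L)
  · -- near case
    rw [hg, show n + 1 + 3 * D + rnd n k + rad k = (n + 3 * D + rnd n k + rad k) + 1 by ring] at h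
    obtain ⟨c', hc', h1⟩ := h.2.1 c (ball_mono (by omega) hcB)
    have hc'B : c' ∈ Ball G S (3 * D) (Prod.snd '' L) := by
      obtain ⟨d, ⟨p, hp, rfl⟩, hnear⟩ := hcB
      have h2 : Near G M (3 * D) p.1 c :=
        (near_ball hnear (Set.mem_image_of_mem _ hp) le_rfl).mono le_rfl
          (ball_mono (by omega))
      have h3 := h1.near (d := p.1) (d' := p.2) (by omega)
        (Set.mem_insert_of_mem _ (Or.inl hp)) (Set.mem_insert _ _) (hLM p hp).2 h2
      exact ⟨p.2, Set.mem_image_of_mem _ hp, h3.mono le_rfl hMS'⟩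
    refine ⟨c', hMS' hc', ?_⟩
    have h4 := EF.restrict (ρ := rad k) (L₁ := insert (c, c') L) hMS' hMS
      (by
        rw [Set.image_insert_eq, ball_insert]
        refine Set.union_subset (ball_mono (by omega)) ?_
        exact (ball_singleton_subset hcB).trans (ball_mono (by omega)))
      (by
        rw [Set.image_insert_eq, ball_insert]
        refine Set.union_subset (ball_mono (by omega)) ?_
        exact (ball_singleton_subset hc'B).trans (ball_mono (by omega)))
      (by
        rintro p (rfl | hp)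
        · exact ⟨ball_mono (by omega) hcB, hc'⟩
        · exact hLM p hp)
      (h := rnd n k) (L := insert (c, c') (L ∪ Diag S))
      (Set.insert_subset_insert Set.subset_union_left)
      (h1.mono_k (by omega))
    rw [← Set.insert_union] at h4
    exact h4
  · -- far case
    set Q : Set V := {z | z ∈ Sᶜ ∧ EF G (Ball G S (rad k) {z}) (Ball G S (rad k) {c}) (rnd n k)
      (insert (z, c) (Diag S))} with hQ
    have hcQ : c ∈ Q := by
      refine ⟨hc, EF.refl ?_⟩
      rintro p (rfl | hp)
      · rfl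
      · exact hp.1
    have hex : ∃ c' ∈ Q, c' ∉ Ball G S D (Prod.snd '' L) := by
      by_contra hno
      push Not at hno
      -- scattered sets
      set P : ℕ → Prop := fun m => ∃ Y : Finset V, Y.card = m ∧ (∀ y ∈ Y, y ∈ Q) ∧
        ∀ y ∈ Y, ∀ z ∈ Y, y ≠ z → ¬ Near G Sᶜ (2 * D) y z with hP
      have hbound : ∀ m, P m → m ≤ n := by
        rintro m ⟨Y, rfl, hYQ, hYs⟩
        refine le_trans ?_ hn
        have hch : ∀ y ∈ Y, ∃ p ∈ F, Near G Sᶜ D p.2 y := by
          intro y hy
          obtain ⟨d, ⟨p, hp, rfl⟩, hnear⟩ := hno y (hYQ y hy)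
          rw [hF] at hp
          exact ⟨p, hp, hnear⟩
        choose! q hq hqn using hch
        refine Finset.card_le_card_of_injOn q hq ?_
        intro y hy z hz e
        by_contra hyz
        refine hYs y hy z hz hyz ?_
        have h1 := hqn y hy
        have h2 := hqn z hz
        rw [e] at h1
        have := h1.symm.trans h2
        rwa [← two_mul] at this
      obtain ⟨e, he, he'⟩ : ∃ e, P e ∧ ¬ P (e + 1) := by
        by_contra hcon
        push Not at hcon
        have hall : ∀ m, P m := by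
          intro m
          induction m with
          | zero => exact ⟨∅, by simp, by simp, by simp⟩
          | succ m ih => exact hcon m ih
        have := hbound (n + 1) (hall _)
        omega
      have hen : e ≤ n := hbound e he
      obtain ⟨Y, rfl, hYQ, hYs⟩ := he
      have hYB : ∀ y ∈ Y, y ∈ Ball G S D (Prod.snd '' L) := fun y hy => hno y (hYQ y hy)
      obtain ⟨f, hf, h2⟩ := EF.play (g := 1 + 3 * D + rnd n k + rad k) Y
        (fun y hy => ball_mono (by omega) (hYB y hy)) (h.mono_k (by omega))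
      have hfB : ∀ y ∈ Y, f y ∈ Ball G S D (Prod.fst '' L) := by
        intro y hy
        obtain ⟨d, ⟨p, hp, rfl⟩, hnear⟩ := hYB y hy
        have h3 : Near G M' D p.2 y :=
          (near_ball hnear (Set.mem_image_of_mem _ hp) le_rfl).mono le_rfl
            (ball_mono (by omega))
        have h4 := h2.swap.near (d := p.2) (d' := p.1) (c := y) (c' := f y) (by omega)
          (Or.inl (Or.inl hp)) (Or.inr ⟨y, hy, rfl⟩) (hLM p hp).1 h3
        exact ⟨p.1, Set.mem_image_of_mem _ hp, h4.mono le_rfl hMS⟩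
      have hsc : ∀ y ∈ Y, ∀ z ∈ Y, y ≠ z → ¬ Near G Sᶜ (2 * D) (f y) (f z) := by
        intro y hy z hz hyz hnear
        have h3 : Near G M (2 * D) (f y) (f z) := near_in_ball (hfB y hy) hnear (by omega)
        have h4 := h2.near (d := f y) (d' := y) (by omega) (Or.inr ⟨y, hy, rfl⟩)
          (Or.inr ⟨z, hz, rfl⟩) (ball_mono (by omega) (hYB y hy)) h3
        exact hYs y hy z hz hyz (h4.mono le_rfl hMS')
      have hcf : ∀ y ∈ Y, ¬ Near G Sᶜ (2 * D) c (f y) := by
        intro y hy hnear
        refine hcB ?_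
        have := ball_trans (hfB y hy) hnear.symm
        rwa [show D + 2 * D = 3 * D by ring] at this
      have hinj : ∀ y ∈ Y, ∀ z ∈ Y, f y = f z → y = z := by
        intro y hy z hz e
        have := (h2.atom (f y, y) (Or.inr ⟨y, hy, rfl⟩) (f z, z) (Or.inr ⟨z, hz, rfl⟩)).1
        exact this.1 e
      refine he' ⟨insert c (Y.image f), ?_, ?_, ?_⟩
      · rw [Finset.card_insert_of_notMem, Finset.card_image_of_injOn]
        · intro y hy z hz e
          exact hinj y hy z hz e
        · intro hmem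
          obtain ⟨y, hy, e⟩ := Finset.mem_image.1 hmem
          refine hcf y hy ?_
          rw [e]
          exact near_refl hc
      · intro z hz
        rcases Finset.mem_insert.1 hz with rfl | hz
        · exact hcQ
        · obtain ⟨y, hy, rfl⟩ := Finset.mem_image.1 hz
          refine ⟨hMS (hf y hy), ?_⟩
          have h5 := EF.restrict (ρ := rad k) (L₁ := {(f y, y)}) hMS' hMS
            (by
              rw [Set.image_singleton]
              exact (ball_singleton_subset (hfB y hy)).trans (ball_mono (by omega)))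
            (by
              rw [Set.image_singleton]
              exact (ball_singleton_subset (hYB y hy)).trans (ball_mono (by omega)))
            (by
              rintro p rfl
              exact ⟨hf y hy, ball_mono (by omega) (hYB y hy)⟩)
            (h := rnd n k) (L := L ∪ Diag S ∪ {p | ∃ y ∈ Y, p = (f y, y)})
            (by
              rintro p rfl
              exact Or.inr ⟨y, hy, rfl⟩)
            (h2.mono_k (by omega))
          rw [Set.image_singleton, Set.image_singleton] at h5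
          refine h5.trans (hYQ y hy).2 ?_
          rintro p (rfl | hp)
          · exact ⟨y, Or.inr ⟨y, hy, rfl⟩, Set.mem_insert _ _⟩
          · exact ⟨p.1, Or.inl (Or.inr ⟨rfl, hp.2⟩), Set.mem_insert_of_mem _ hp⟩
      · intro y hy z hz hyz
        rcases Finset.mem_insert.1 hy with rfl | hy1
        · rcases Finset.mem_insert.1 hz with rfl | hz1
          · exact absurd rfl hyz
          · obtain ⟨z', hz', rfl⟩ := Finset.mem_image.1 hz1
            exact hcf z' hz'
        · obtain ⟨y', hy', rfl⟩ := Finset.mem_image.1 hy1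
          rcases Finset.mem_insert.1 hz with rfl | hz1
          · exact fun hnear => hcf y' hy' hnear.symm
          · obtain ⟨z', hz', rfl⟩ := Finset.mem_image.1 hz1
            exact hsc y' hy' z' hz' (fun e => hyz (by rw [e]))
    obtain ⟨c', hc'Q, hc'B⟩ := hex
    refine ⟨c', hc'Q.1, ?_⟩
    have h1 := EF.restrict (ρ := rad k) (L₁ := L) hMS' hMS (ball_mono (by omega))
      (ball_mono (by omega)) hLM (h := rnd n k) (L := L ∪ Diag S) Set.subset_union_left
      (h.mono_k (by omega))
    have h2 := hc'Q.2.swap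
    rw [swap_insert, swap_diag] at h2
    have far : ∀ {N : Set V} {y : V}, y ∉ Ball G S D N → ∀ x ∈ Ball G S (rad k) N,
        ∀ z ∈ Ball G S (rad k) {y}, x ≠ z ∧ ¬ G.Adj x z := by
      intro N y hy x hx z hz
      obtain ⟨d, hd, hnz⟩ := hz
      have hd : d = y := hd
      subst hd
      constructor
      · rintro rfl
        refine hy (ball_mono (by omega) (ball_trans hx hnz.symm))
      · intro hadj
        have h3 := (near_of_adj hadj (ball_subset_compl hx) hnz.right_mem).trans hnz.symm
        exact hy (ball_mono (by omega) (ball_trans hx h3))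
    have h3 := EF.union (k := rnd n k) (La := L) (Lb := {(c, c')}) (E := Diag S)
      (far (fun hh => hcB (ball_mono (by omega) hh))) (far hc'B)
      (fun p hp => ⟨mem_ball_self (Set.mem_image_of_mem _ hp) (hL p hp).1,
        mem_ball_self (Set.mem_image_of_mem _ hp) (hL p hp).2⟩)
      (by
        rintro p rfl
        exact ⟨mem_ball_self rfl hc, mem_ball_self rfl hc'Q.1⟩)
      h1 (by rwa [Set.singleton_union])
    rw [Loc, Set.image_insert_eq, Set.image_insert_eq, ball_insert, ball_insert]
    refine h3.mono_set ?_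
    rw [Set.union_singleton]

/-- Gaifman locality: locally equivalent tuples are equivalent. -/
theorem gaifman {n : ℕ} : ∀ (k : ℕ) (F : Finset (V × V)), F.card + k ≤ n →
    (∀ p ∈ F, p.1 ∈ Sᶜ ∧ p.2 ∈ Sᶜ) → Loc G S n k (F : Set (V × V)) →
    EF G Sᶜ Sᶜ k ((F : Set (V × V)) ∪ Diag S) := by
  classical
  intro k
  induction k with
  | zero => intro F _ _ h; exact h.atom
  | succ k ih =>
    intro F hn hF h
    refine ⟨h.atom, fun c hc => ?_, fun c' hc' => ?_⟩
    · obtain ⟨c', hc', h1⟩ := h.step rfl (by omega) hF c hc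
      refine ⟨c', hc', ?_⟩
      rw [← Set.insert_union]
      have := ih (insert (c, c') F) (by have := Finset.card_insert_le (c, c') F; omega)
        (by
          intro p hp
          rcases Finset.mem_insert.1 hp with rfl | hp
          · exact ⟨hc, hc'⟩
          · exact hF p hp)
        (by rw [Finset.coe_insert]; exact h1)
      rwa [Finset.coe_insert] at this
    · have hsw : (Prod.swap ⁻¹' (F : Set (V × V))) = ((F.image Prod.swap : Finset (V × V)) :
          Set (V × V)) := by
        ext ⟨x, y⟩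
        simp
      obtain ⟨c, hc, h1⟩ := h.swap.step hsw
        (Finset.card_image_le.trans (by omega)) (by
          rintro ⟨x, y⟩ hp
          have := hF (y, x) hp
          exact ⟨this.2, this.1⟩) c' hc'
      refine ⟨c, hc, ?_⟩
      rw [← Set.insert_union]
      have h2 := h1.swap
      rw [swap_insert, swap_swap_set] at h2
      have := ih (insert (c, c') F) (by have := Finset.card_insert_le (c, c') F; omega)
        (by
          intro p hp
          rcases Finset.mem_insert.1 hp with rfl | hp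
          · exact ⟨hc, hc'⟩
          · exact hF p hp)
        (by rw [Finset.coe_insert]; exact h2)
      rwa [Finset.coe_insert] at this

/-- The separation lemma. -/
theorem separation (k p q : ℕ) : ∃ r k' : ℕ, ∀ (V : Type) (G : SimpleGraph V) (S : Set V)
    (a a' : Fin p → V) (b : Fin q → V),
    EF G Set.univ Set.univ k' (Set.range (fun i => (a i, a' i)) ∪ Diag S) →
    (∀ i j, ¬ Near G Sᶜ r (a i) (b j)) → (∀ i j, ¬ Near G Sᶜ r (a' i) (b j)) →
    EF G Set.univ Set.univ k
      (Set.range (fun i => (a i, a' i)) ∪ Set.range (fun j => (b j, b j))) := by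
  classical
  set n := p + q + k with hn
  refine ⟨2 * rad k + 1, rnd n k + rad k, ?_⟩
  intro V G S a a' b h hsep hsep'
  set La : Finset (V × V) := (Finset.univ.image (fun i => (a i, a' i))).filter (fun x => x.1 ∉ S)
    with hLa
  set Lb : Finset (V × V) := (Finset.univ.image (fun j => (b j, b j))).filter (fun x => x.1 ∉ S)
    with hLb
  have hdiag : ∀ i, a i ∈ S ∨ a' i ∈ S → a i = a' i := by
    rintro i (hi | hi)
    · exact ((h.atom (a i, a' i) (Or.inl ⟨i, rfl⟩) (a i, a i) (Or.inr ⟨rfl, hi⟩)).1.1 rfl).symm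
    · exact ((h.atom (a i, a' i) (Or.inl ⟨i, rfl⟩) (a' i, a' i) (Or.inr ⟨rfl, hi⟩)).1.2 rfl)
  have hmemA : ∀ x ∈ La, ∃ i, x = (a i, a' i) ∧ a i ∉ S ∧ a' i ∉ S := by
    intro x hx
    simp only [hLa, Finset.mem_filter, Finset.mem_image, Finset.mem_univ, true_and] at hx
    obtain ⟨⟨i, rfl⟩, hi⟩ := hx
    refine ⟨i, rfl, hi, fun hi' => hi ?_⟩
    have := hdiag i (Or.inr hi')
    simp only [this]
    exact hi'
  have hmemB : ∀ x ∈ Lb, ∃ j, x = (b j, b j) ∧ b j ∉ S := by
    intro x hx
    simp only [hLb, Finset.mem_filter, Finset.mem_image, Finset.mem_univ, true_and] at hx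
    obtain ⟨⟨j, rfl⟩, hj⟩ := hx
    exact ⟨j, rfl, hj⟩
  -- local equivalence of the first part
  have hA1 : EF G Sᶜ Sᶜ (rnd n k + rad k) ((La : Set (V × V)) ∪ Diag S) := by
    have h1 : EF G Set.univ Set.univ (rnd n k + rad k) ((La : Set (V × V)) ∪ Diag S) := by
      refine h.mono_set (Set.union_subset_union_left _ ?_)
      intro x hx
      obtain ⟨i, rfl, -⟩ := hmemA x hx
      exact ⟨i, rfl⟩
    exact h1.compl_of_univ
  have hA2 := EF.restrict (ρ := rad k) (L₁ := (La : Set (V × V))) (M := Sᶜ) (M' := Sᶜ)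
    subset_rfl subset_rfl ball_subset_compl ball_subset_compl
    (by
      intro x hx
      obtain ⟨i, rfl, h1, h2⟩ := hmemA x hx
      exact ⟨h1, h2⟩) (h := rnd n k) (L := (La : Set (V × V)) ∪ Diag S)
    Set.subset_union_left hA1
  have hfs : Prod.snd '' (Lb : Set (V × V)) = Prod.fst '' (Lb : Set (V × V)) := by
    ext x
    constructor
    · rintro ⟨y, hy, rfl⟩
      obtain ⟨j, rfl, -⟩ := hmemB y hy
      exact ⟨_, hy, rfl⟩
    · rintro ⟨y, hy, rfl⟩
      obtain ⟨j, rfl, -⟩ := hmemB y hy
      exact ⟨_, hy, rfl⟩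
  have hB2 : EF G (Ball G S (rad k) (Prod.fst '' (Lb : Set (V × V))))
      (Ball G S (rad k) (Prod.snd '' (Lb : Set (V × V)))) (rnd n k)
      ((Lb : Set (V × V)) ∪ Diag S) := by
    rw [hfs]
    refine EF.refl ?_
    rintro x (hx | hx)
    · obtain ⟨j, rfl, -⟩ := hmemB x hx
      rfl
    · exact hx.1
  have far : ∀ {A B : Set V}, (∀ x ∈ A, ∀ y ∈ B, ¬ Near G Sᶜ (2 * rad k + 1) x y) →
      ∀ x ∈ Ball G S (rad k) A, ∀ y ∈ Ball G S (rad k) B, x ≠ y ∧ ¬ G.Adj x y := by
    intro A B hAB x hx y hy
    obtain ⟨d, hd, hdx⟩ := hx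
    obtain ⟨e, he, hey⟩ := hy
    constructor
    · rintro rfl
      exact hAB d hd e he ((hdx.trans hey.symm).mono (by omega) subset_rfl)
    · intro hadj
      have := hdx.trans ((near_of_adj hadj hdx.right_mem hey.right_mem).trans hey.symm)
      exact hAB d hd e he (this.mono (by omega) subset_rfl)
  have hU := EF.union (k := rnd n k) (La := (La : Set (V × V))) (Lb := (Lb : Set (V × V)))
    (E := Diag S)
    (far (A := Prod.fst '' (La : Set (V × V))) (B := Prod.fst '' (Lb : Set (V × V)))
      (by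
        rintro _ ⟨x, hx, rfl⟩ _ ⟨y, hy, rfl⟩
        obtain ⟨i, rfl, -⟩ := hmemA x hx
        obtain ⟨j, rfl, -⟩ := hmemB y hy
        exact hsep i j))
    (far (A := Prod.snd '' (La : Set (V × V))) (B := Prod.snd '' (Lb : Set (V × V)))
      (by
        rintro _ ⟨x, hx, rfl⟩ _ ⟨y, hy, rfl⟩
        obtain ⟨i, rfl, -⟩ := hmemA x hx
        obtain ⟨j, rfl, -⟩ := hmemB y hy
        exact hsep' i j))
    (by
      intro x hx
      obtain ⟨i, e, h1, h2⟩ := hmemA x hx
      refine ⟨mem_ball_self (Set.mem_image_of_mem _ hx) ?_,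
        mem_ball_self (Set.mem_image_of_mem _ hx) ?_⟩
      · rw [e]; exact h1
      · rw [e]; exact h2)
    (by
      intro x hx
      obtain ⟨j, e, h1⟩ := hmemB x hx
      refine ⟨mem_ball_self (Set.mem_image_of_mem _ hx) ?_,
        mem_ball_self (Set.mem_image_of_mem _ hx) ?_⟩
      · rw [e]; exact h1
      · rw [e]; exact h1)
    hA2 hB2
  have hbu : ∀ A B : Set V, Ball G S (rad k) (A ∪ B) = Ball G S (rad k) A ∪ Ball G S (rad k) B := by
    intro A B
    ext x
    simp only [Ball, Set.mem_union, Set.mem_ofPred_eq]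
    constructor
    · rintro ⟨d, hd | hd, hn⟩
      · exact Or.inl ⟨d, hd, hn⟩
      · exact Or.inr ⟨d, hd, hn⟩
    · rintro (⟨d, hd, hn⟩ | ⟨d, hd, hn⟩)
      · exact ⟨d, Or.inl hd, hn⟩
      · exact ⟨d, Or.inr hd, hn⟩
  have hLoc : Loc G S n k ((La ∪ Lb : Finset (V × V)) : Set (V × V)) := by
    rw [Loc, Finset.coe_union, Set.image_union, Set.image_union, hbu, hbu]
    exact hU
  have hcard : (La ∪ Lb).card + k ≤ n := by
    have h1 : La.card ≤ p := by
      refine (Finset.card_filter_le _ _).trans (Finset.card_image_le.trans ?_)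
      simp
    have h2 : Lb.card ≤ q := by
      refine (Finset.card_filter_le _ _).trans (Finset.card_image_le.trans ?_)
      simp
    have := Finset.card_union_le La Lb
    omega
  have hfin := (gaifman k (La ∪ Lb) hcard (by
    intro x hx
    rcases Finset.mem_union.1 hx with hx | hx
    · obtain ⟨i, rfl, h1, h2⟩ := hmemA x hx
      exact ⟨h1, h2⟩
    · obtain ⟨j, rfl, h1⟩ := hmemB x hx
      exact ⟨h1, h1⟩) hLoc).univ_of_compl
  refine hfin.mono_set ?_
  rintro x (⟨i, rfl⟩ | ⟨j, rfl⟩)
  · by_cases hi : a i ∈ S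
    · right
      exact ⟨hdiag i (Or.inl hi), hi⟩
    · left
      simp only [Finset.coe_union, Set.mem_union, Finset.mem_coe]
      left
      exact Finset.mem_filter.2 ⟨Finset.mem_image_of_mem _ (Finset.mem_univ i), hi⟩
  · by_cases hj : b j ∈ S
    · right
      exact ⟨rfl, hj⟩
    · left
      simp only [Finset.coe_union, Set.mem_union, Finset.mem_coe]
      right
      exact Finset.mem_filter.2 ⟨Finset.mem_image_of_mem _ (Finset.mem_univ j), hj⟩

end Pool.Agent.Helper28.HD
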