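import Mathlib
import Pool.Agent.Helper28.HD.Defs

/-!
# Module 6: the cluster scheme

From sparse covers and the bounded splitter game we build for every `a ∈ A` a chain of nodes
(prefixes of the list `κ a`), for every vertex `b` a small set of nodes `B b`, and for every node
`ν` a small set `S ν`, such that for the last node `ν` of the chain of `a` that lies in `B b` the
set `S ν` separates `a` from `b` at distance `r`.
-/

namespace Pool.Agent.Helper28.HD

open SimpleGraph

variable {V : Type}

lemma sw_empty {G : SimpleGraph V} {R w : ℕ} : ∀ k, SW G R w k ∅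
  | 0 => rfl
  | k + 1 => fun z hz => absurd hz (Set.notMem_empty z)

open Classical in
theorem scheme_aux (G : SimpleGraph V) (r w T : ℕ) (A0 : Finset V)
    (hcov : ∀ (M : Set V) (A : Finset V), A ⊆ A0 → (A : Set V) ⊆ M →
      ∃ key : V → V, (∀ a ∈ A, Near G M r a (key a)) ∧
        ∀ b, ((A.filter (fun a => Near G M r a b)).image key).card ≤ T) :
    ∀ (k : ℕ) (M : Set V) (S0 A : Finset V), SW G (2 * r) w k M → A ⊆ A0 →
      (∀ a ∈ A, a ∈ M ∧ ∀ x, Near G ((S0 : Set V)ᶜ) r a x → x ∈ M) →
      ∃ (κ : V → List V) (B : V → Finset (List V)) (S : List V → Finset V),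
        (∀ a ∈ A, (κ a).length ≤ k) ∧ (∀ b, [] ∈ B b) ∧
        (∀ b ν x, ν ++ [x] ∈ B b → ν ∈ B b) ∧ (∀ b, (B b).card ≤ (T + 1) ^ k) ∧
        (∀ ν, (S ν).card ≤ S0.card + w * ν.length) ∧ (∀ ν x, S ν ⊆ S (ν ++ [x])) ∧ S [] = S0 ∧
        ∀ a ∈ A, ∀ b, ∀ ν, ν <+: κ a → ν ∈ B b → (∀ x, ν ++ [x] <+: κ a → ν ++ [x] ∉ B b) →
          ¬ Near G ((S ν : Set V)ᶜ) r a b := by
  intro k
  induction k with
  | zero =>
    intro M S0 A hM hA hAM
    have hM : M = ∅ := hM
    refine ⟨fun _ => [], fun _ => {[]}, fun _ => S0, ?_, ?_, ?_, ?_, ?_, ?_, rfl, ?_⟩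
    · simp
    · simp
    · simp
    · simp
    · simp
    · simp
    · intro a ha
      exact absurd (hAM a ha).1 (by simp [hM])
  | succ k ih =>
    intro M S0 A hM hA hAM
    obtain ⟨key, hkey, hT⟩ := hcov M A hA (fun a ha => (hAM a ha).1)
    have hW : ∀ z, ∃ W : Finset V, W.card ≤ w ∧
        (z ∈ M → SW G (2 * r) w k ({x | Near G M (2 * r) z x} \ W)) := by
      intro z
      by_cases hz : z ∈ M
      · obtain ⟨W, h1, h2⟩ := hM z hz
        exact ⟨W, h1, fun _ => h2⟩
      · exact ⟨∅, by simp, fun h => absurd h hz⟩
    choose W hWc hW using hW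
    set X : V → Set V := fun z => {x | ∃ a ∈ A, key a = z ∧ Near G M r a x} with hX
    have hsw : ∀ z, SW G (2 * r) w k (X z \ W z) := by
      intro z
      by_cases hz : z ∈ M
      · refine (hW z hz).mono (Set.sdiff_subset_sdiff_left ?_)
        rintro x ⟨a, ha, rfl, hx⟩
        have := (hkey a ha).symm.trans hx
        rwa [← two_mul] at this
      · have : X z \ W z = ∅ := by
          rw [Set.eq_empty_iff_forall_notMem]
          rintro x ⟨⟨a, ha, rfl, hx⟩, -⟩
          exact hz (hkey a ha).right_mem
        rw [this]
        exact sw_empty k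
    have hI := fun z => ih (X z \ W z) (S0 ∪ W z) (A.filter (fun a => key a = z ∧ a ∉ W z))
      (hsw z) ((Finset.filter_subset _ _).trans hA) (by
        intro a ha
        rw [Finset.mem_filter] at ha
        obtain ⟨ha, hz, haW⟩ := ha
        refine ⟨⟨⟨a, ha, hz, near_refl (hAM a ha).1⟩, by simpa using haW⟩, ?_⟩
        rintro x ⟨p, hp, hx⟩
        have hx' : ∀ y ∈ p.support, y ∈ M := by
          intro y hy
          refine (hAM a ha).2 y ?_
          refine near_of_mem_support p hp (fun u hu => ?_) hy
          have := hx u hu
          simp only [Finset.coe_union, Set.mem_compl_iff, Set.mem_union, not_or] at this ⊢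
          exact this.1
        refine ⟨⟨a, ha, hz, p, hp, hx'⟩, ?_⟩
        have := hx x p.end_mem_support
        simp only [Finset.coe_union, Set.mem_compl_iff, Set.mem_union, not_or] at this
        exact this.2)
    choose κ B S h1 h2 h3 h4 h5 h6 h7 h8 using hI
    refine ⟨fun a => if a ∈ W (key a) then [key a] else key a :: κ (key a) a,
      fun b => {[]} ∪ ((A.filter (fun a => Near G M r a b)).image key).biUnion
        (fun z => (B z b).image (z :: ·)),
      fun ν => match ν with | [] => S0 | z :: ν => S z ν, ?_, ?_, ?_, ?_, ?_, ?_, rfl, ?_⟩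
    · intro a ha
      by_cases haW : a ∈ W (key a)
      · simp [haW]
      · simp only [haW, if_false, List.length_cons]
        have := h1 (key a) a (by simp [ha, haW])
        omega
    · intro b; simp
    · intro b ν x h
      rcases ν with _ | ⟨z, ν⟩
      · simp
      · simp only [List.cons_append, Finset.mem_union, Finset.mem_singleton, Finset.mem_biUnion,
          Finset.mem_image] at h ⊢
        rcases h with h | ⟨z', hz', ν', hν', e⟩
        · simp at h
        · right
          obtain ⟨rfl, rfl⟩ : z' = z ∧ ν' = ν ++ [x] := by simpa using e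
          exact ⟨z', hz', ν, h3 _ _ _ _ hν', rfl⟩
    · intro b
      refine (Finset.card_union_le _ _).trans ?_
      have : (((A.filter (fun a => Near G M r a b)).image key).biUnion
        (fun z => (B z b).image (z :: ·))).card ≤ T * (T + 1) ^ k := by
        refine (Finset.card_biUnion_le_card_mul _ _ ((T + 1) ^ k) ?_).trans
          (Nat.mul_le_mul_right _ (hT b))
        intro z _
        exact Finset.card_image_le.trans (h4 z b)
      rw [Finset.card_singleton, pow_succ]
      have : 1 ≤ (T + 1) ^ k := Nat.one_le_pow _ _ (by omega)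
      nlinarith
    · intro ν
      rcases ν with _ | ⟨z, ν⟩
      · simp
      · simp only [List.length_cons]
        refine (h5 z ν).trans ?_
        have := Finset.card_union_le S0 (W z)
        have := hWc z
        rw [mul_add, mul_one]
        omega
    · intro ν x
      rcases ν with _ | ⟨z, ν⟩
      · simp only [List.nil_append, h7]
        exact Finset.subset_union_left
      · simp only [List.cons_append]
        exact h6 z ν x
    · intro a ha b ν hν hνB hmax
      have hpre : [key a] <+: (if a ∈ W (key a) then [key a] else key a :: κ (key a) a) := by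
        split_ifs
        · exact List.prefix_rfl
        · exact ⟨κ (key a) a, rfl⟩
      rcases ν with _ | ⟨z, ν⟩
      · rintro ⟨p, hp, hx⟩
        have hx' : ∀ y ∈ p.support, y ∈ M := fun y hy =>
          (hAM a ha).2 y (near_of_mem_support p hp hx hy)
        refine hmax (key a) (by simpa using hpre) ?_
        simp only [List.nil_append, Finset.mem_union, Finset.mem_singleton, Finset.mem_biUnion,
          Finset.mem_image, Finset.mem_filter]
        exact Or.inr ⟨key a, ⟨a, ⟨ha, p, hp, hx'⟩, rfl⟩, [], h2 _ _, rfl⟩
      · simp only [Finset.mem_union, Finset.mem_singleton, Finset.mem_biUnion, Finset.mem_image,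
          reduceCtorEq, false_or] at hνB
        obtain ⟨z', hz', ν', hν', e⟩ := hνB
        obtain ⟨rfl, rfl⟩ : z' = z ∧ ν' = ν := by simpa using e
        by_cases haW : a ∈ W (key a)
        · simp only [haW, if_true] at hν
          rw [List.cons_prefix_cons] at hν
          obtain ⟨rfl, hν⟩ := hν
          have : ν' = [] := List.prefix_nil.1 hν
          subst this
          intro h
          have : a ∈ ((S (key a) [] : Finset V) : Set V)ᶜ := h.left_mem
          rw [h7] at this
          simp [haW] at this
        · simp only [haW, if_false] at hν hmax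
          rw [List.cons_prefix_cons] at hν
          obtain ⟨rfl, hν⟩ := hν
          refine h8 (key a) a (by simp [ha, haW]) b ν' hν hν' ?_
          intro x hx hxB
          refine hmax x ?_ ?_
          · simpa using hx
          · simp only [List.cons_append, Finset.mem_union, Finset.mem_singleton,
              Finset.mem_biUnion, Finset.mem_image]
            exact Or.inr ⟨key a, by simpa using hz', ν' ++ [x], hxB, rfl⟩

end Pool.Agent.Helper28.HD
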