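import Mathlib
import Pool.Agent.Helper28.HD.EF
import Pool.Agent.Helper28.HD.FinalDefs

/-!
# Module 8: first-order formulas and games; finitely many types
-/

namespace Pool.Agent.Helper28.HD

open SimpleGraph FirstOrder Language

/-- Every term of the language of graphs is a variable. -/
lemma term_eq_var {β : Type} (t : Language.graph.Term β) : ∃ x, t = Term.var x := by
  cases t with
  | var x => exact ⟨x, rfl⟩
  | func f _ => exact f.elim

/-- The pairs of values of two assignments. -/
def pairs {V α : Type} (v v' : α → V) : Set (V × V) := Set.range (fun i => (v i, v' i))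

lemma pairs_mem {V α : Type} (v v' : α → V) (i : α) : (v i, v' i) ∈ pairs v v' := ⟨i, rfl⟩

/-- Game equivalence implies elementary equivalence for a given formula. -/
theorem ef_realize {α : Type} : ∀ {n : ℕ} (φ : Language.graph.BoundedFormula α n), ∃ k : ℕ,
    ∀ (V : Type) (G : SimpleGraph V) (v v' : α → V) (xs xs' : Fin n → V),
      EF G Set.univ Set.univ k (pairs (Sum.elim v xs) (Sum.elim v' xs')) →
      (@BoundedFormula.Realize _ V G.structure α n φ v xs ↔
        @BoundedFormula.Realize _ V G.structure α n φ v' xs') := by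
  intro n φ
  induction φ with
  | falsum => exact ⟨0, fun V G v v' xs xs' _ => Iff.rfl⟩
  | @equal n t₁ t₂ =>
    refine ⟨0, fun V G v v' xs xs' h => ?_⟩
    obtain ⟨x, rfl⟩ := term_eq_var t₁
    obtain ⟨y, rfl⟩ := term_eq_var t₂
    exact (h.atom _ (pairs_mem _ _ x) _ (pairs_mem _ _ y)).1
  | @rel n l R ts =>
    refine ⟨0, fun V G v v' xs xs' h => ?_⟩
    cases R
    obtain ⟨x, hx⟩ := term_eq_var (ts 0)
    obtain ⟨y, hy⟩ := term_eq_var (ts 1)
    have := (h.atom _ (pairs_mem _ _ x) _ (pairs_mem _ _ y)).2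
    have e : ∀ (w : α → V) (ws : Fin n → V),
        (@BoundedFormula.Realize _ V G.structure α n
          (BoundedFormula.rel FirstOrder.Language.graphRel.adj ts) w ws ↔
          G.Adj (Sum.elim w ws x) (Sum.elim w ws y)) := by
      intro w ws
      change G.Adj (@Term.realize _ _ G.structure _ (Sum.elim w ws) (ts 0))
        (@Term.realize _ _ G.structure _ (Sum.elim w ws) (ts 1)) ↔ _
      rw [hx, hy]
      exact Iff.rfl
    rw [e, e]
    exact this
  | @imp n φ ψ ih₁ ih₂ =>
    obtain ⟨k₁, h₁⟩ := ih₁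
    obtain ⟨k₂, h₂⟩ := ih₂
    refine ⟨max k₁ k₂, fun V G v v' xs xs' h => ?_⟩
    have e₁ := h₁ V G v v' xs xs' (h.mono_k (le_max_left _ _))
    have e₂ := h₂ V G v v' xs xs' (h.mono_k (le_max_right _ _))
    change (_ → _) ↔ (_ → _)
    rw [e₁, e₂]
  | @all n φ ih =>
    obtain ⟨k, hk⟩ := ih
    refine ⟨k + 1, fun V G v v' xs xs' h => ?_⟩
    have key : ∀ c c' : V, EF G Set.univ Set.univ k
        (insert (c, c') (pairs (Sum.elim v xs) (Sum.elim v' xs'))) →
        (@BoundedFormula.Realize _ V G.structure α (n + 1) φ v (Fin.snoc xs c) ↔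
        @BoundedFormula.Realize _ V G.structure α (n + 1) φ v' (Fin.snoc xs' c')) := by
      intro c c' hc
      refine hk V G v v' _ _ (hc.mono_set ?_)
      rintro _ ⟨i, rfl⟩
      rcases i with a | i
      · exact Set.mem_insert_of_mem _ ⟨Sum.inl a, rfl⟩
      · induction i using Fin.lastCases with
        | last => left; simp
        | cast i =>
          right
          refine ⟨Sum.inr i, ?_⟩
          simp
    change (∀ c : V, @BoundedFormula.Realize _ V G.structure α (n + 1) φ v (Fin.snoc xs c)) ↔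
      (∀ c : V, @BoundedFormula.Realize _ V G.structure α (n + 1) φ v' (Fin.snoc xs' c))
    constructor
    · intro hall c'
      obtain ⟨c, -, hc⟩ := h.2.2 c' trivial
      exact (key c c' hc).1 (hall c)
    · intro hall c
      obtain ⟨c', -, hc⟩ := h.2.1 c trivial
      exact (key c c' hc).2 (hall c')

/-- Version for partitioned formulas. -/
theorem ef_sat {p q : ℕ} (φ : Language.graph.Formula (Fin p ⊕ Fin q)) : ∃ k : ℕ,
    ∀ (V : Type) (G : SimpleGraph V) (a a' : Fin p → V) (b b' : Fin q → V),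
      EF G Set.univ Set.univ k (pairs a a' ∪ pairs b b') → (Sat G φ a b ↔ Sat G φ a' b') := by
  obtain ⟨k, hk⟩ := ef_realize φ
  refine ⟨k, fun V G a a' b b' h => hk V G _ _ _ _ (h.mono_set ?_)⟩
  rintro _ ⟨i, rfl⟩
  rcases i with i | i
  · rcases i with i | i
    · exact Or.inl ⟨i, rfl⟩
    · exact Or.inr ⟨i, rfl⟩
  · exact i.elim0

/-- There are only finitely many types of `n`-tuples. -/
theorem types : ∀ (k n : ℕ), ∃ (T : Type) (_ : Fintype T), ∀ (V : Type) (G : SimpleGraph V),
    ∃ tp : (Fin n → V) → T, ∀ x x', tp x = tp x' → EF G Set.univ Set.univ k (pairs x x') := by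
  classical
  intro k
  induction k with
  | zero =>
    intro n
    refine ⟨Fin n → Fin n → Prop × Prop, inferInstance, fun V G => ?_⟩
    refine ⟨fun x i j => (x i = x j, G.Adj (x i) (x j)), fun x x' h => ?_⟩
    rintro _ ⟨i, rfl⟩ _ ⟨j, rfl⟩
    have := congrFun (congrFun h i) j
    simp only [Prod.mk.injEq, eq_iff_iff] at this
    exact this
  | succ k ih =>
    intro n
    obtain ⟨T, hT, h⟩ := ih (n + 1)
    refine ⟨(Fin n → Fin n → Prop × Prop) × Set T, inferInstance, fun V G => ?_⟩
    obtain ⟨tp, htp⟩ := h V G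
    refine ⟨fun x => (fun i j => (x i = x j, G.Adj (x i) (x j)),
      Set.range (fun c : V => tp (Fin.snoc x c))), fun x x' h => ?_⟩
    simp only [Prod.mk.injEq] at h
    obtain ⟨h1, h2⟩ := h
    have key : ∀ c c', tp (Fin.snoc x c) = tp (Fin.snoc x' c') →
        EF G Set.univ Set.univ k (insert (c, c') (pairs x x')) := by
      intro c c' e
      refine (htp _ _ e).mono_set ?_
      rintro _ (rfl | ⟨i, rfl⟩)
      · exact ⟨Fin.last n, by simp⟩
      · exact ⟨i.castSucc, by simp⟩
    refine ⟨?_, fun c _ => ?_, fun c' _ => ?_⟩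
    · rintro _ ⟨i, rfl⟩ _ ⟨j, rfl⟩
      have := congrFun (congrFun h1 i) j
      simp only [Prod.mk.injEq, eq_iff_iff] at this
      exact this
    · have : tp (Fin.snoc x c) ∈ Set.range (fun c : V => tp (Fin.snoc x' c)) := by
        rw [← h2]; exact ⟨c, rfl⟩
      obtain ⟨c', hc'⟩ := this
      exact ⟨c', trivial, key c c' hc'.symm⟩
    · have : tp (Fin.snoc x' c') ∈ Set.range (fun c : V => tp (Fin.snoc x c)) := by
        rw [h2]; exact ⟨c', rfl⟩
      obtain ⟨c, hc⟩ := this
      exact ⟨c, trivial, key c c' hc⟩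

end Pool.Agent.Helper28.HD
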