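import Mathlib
import Pool.Agent.Helper28.HD.Scheme
import Pool.Agent.Helper28.HD.Gaifman
import Pool.Agent.Helper28.HD.Types
import Pool.Agent.Helper28.HD.Decomp
import Pool.Agent.Helper28.HD.FinalDefs

/-!
# Module 12: nowhere dense classes have small hereditary discrepancy
-/

namespace Pool.Agent.Helper28.HD

open SimpleGraph

variable {V : Type}

lemma isContained_of_hasSubdiv {G : SimpleGraph V} {r n : ℕ} (h : HasSubdiv G r n) :
    subdivK r n ⊑ G := by
  obtain ⟨f, P, hf, hends, hadj, hinn, hinj⟩ := h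
  set g : Fin n ⊕ ({p : Fin n × Fin n // p.1 < p.2} × Fin r) → V :=
    Sum.elim f (fun x => P x.1.1.1 x.1.1.2 (x.2 + 1)) with hg
  have hnode : ∀ (p : {p : Fin n × Fin n // p.1 < p.2}) (l : ℕ), l ≤ r + 1 →
      g (subdivNode r n p l) = P p.1.1 p.1.2 l := by
    intro p l hl
    unfold subdivNode
    by_cases h0 : l = 0
    · simp [h0, hg, (hends _ _ p.2).1]
    · by_cases h1 : l - 1 < r
      · rw [if_neg h0, dif_pos h1]
        simp only [hg, Sum.elim_inr]
        congr 1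
        omega
      · have : l = r + 1 := by omega
        rw [if_neg h0, dif_neg h1]
        simp [this, hg, (hends _ _ p.2).2]
  have hadj' : ∀ x y, (∃ (p : {p : Fin n × Fin n // p.1 < p.2}) (l : ℕ), l ≤ r ∧
      x = subdivNode r n p l ∧ y = subdivNode r n p (l + 1)) → G.Adj (g x) (g y) := by
    rintro x y ⟨p, l, hl, rfl, rfl⟩
    rw [hnode p l (by omega), hnode p (l + 1) (by omega)]
    exact hadj _ _ p.2 l hl
  refine ⟨⟨⟨g, ?_⟩, ?_⟩⟩
  · intro x y hxy
    rw [subdivK, SimpleGraph.fromRel_adj] at hxy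
    rcases hxy.2 with h | h
    · exact hadj' x y h
    · exact (hadj' y x h).symm
  · intro x y hxy
    have hxy : g x = g y := hxy
    rcases x with i | ⟨p, a⟩ <;> rcases y with j | ⟨q, b⟩
    · exact congrArg Sum.inl (hf hxy)
    · exact absurd hxy.symm (hinn _ _ q.2 _ (by omega) (by have := b.2; omega) i)
    · exact absurd hxy (hinn _ _ p.2 _ (by omega) (by have := a.2; omega) j)
    · have := hinj _ _ _ _ p.2 q.2 (a + 1) (b + 1) (by omega) (by have := a.2; omega)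
        (by omega) (by have := b.2; omega) hxy
      obtain ⟨h1, h2, h3⟩ := this
      have h4 : p = q := Subtype.ext (Prod.ext h1 h2)
      have h5 : a = b := Fin.ext (by omega)
      rw [h4, h5]

/-- Enumerating a small finite set. -/
lemma exists_enum (F : Finset V) (σ : ℕ) (hF : F.card ≤ σ) (hne : σ = 0 ∨ Nonempty V) :
    ∃ e : Fin σ → V, ∀ v ∈ F, ∃ i, e i = v := by
  classical
  rcases hne with rfl | ⟨⟨v0⟩⟩
  · refine ⟨fun i => i.elim0, fun v hv => ?_⟩
    have : F = ∅ := Finset.card_eq_zero.1 (by omega)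
    simp [this] at hv
  · refine ⟨fun i => if h : (i : ℕ) < F.card then (F.equivFin.symm ⟨i, h⟩ : V) else v0, ?_⟩
    intro v hv
    have h1 := (F.equivFin ⟨v, hv⟩).2
    refine ⟨⟨F.equivFin ⟨v, hv⟩, h1.trans_le hF⟩, ?_⟩
    simp

open Classical in
/-- The bound for one graph. -/
theorem herdisc_bound (hBF : BeckFiala) (t : ℕ → ℕ) (hG : GameBound t) (hC : CoverBound t)
    {p q : ℕ} (φ : FirstOrder.Language.graph.Formula (Fin p ⊕ Fin q)) :
    ∃ (r kk cT : ℕ), ∀ j, 1 ≤ j → ∃ c : ℕ, ∀ (n : ℕ) (G : SimpleGraph (Fin n)), Excl G t →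
      ∀ Tc : ℕ, (∀ x : ℕ, x ^ j ≤ c * (p * (⋃₀ setSystem G φ).ncard) → x ≤ Tc) →
      (⋃₀ setSystem G φ).Nonempty →
      herdisc (setSystem G φ) ≤ (q * (Tc + 1) ^ kk + 1) ^ (2 * p) * cT *
        (2 * ((kk + 1) ^ p * 2 ^ p * cT)) := by
  obtain ⟨k1, hk1⟩ := ef_sat φ
  obtain ⟨r, k', hsep⟩ := separation k1 p q
  obtain ⟨kk, w, hgame⟩ := hG (2 * r)
  set σ := p * (w * kk) with hσ
  obtain ⟨T, hT, htypes⟩ := types k' (p + σ)
  refine ⟨r, kk, Fintype.card T, fun j hj => ?_⟩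
  obtain ⟨c, hc⟩ := hC r j hj
  refine ⟨c, fun n G hex Tc hTc hne => ?_⟩
  set U : Set (Fin p → Fin n) := ⋃₀ setSystem G φ with hU
  have hUfin : U.Finite := Set.toFinite U
  set A0 : Finset (Fin n) := hUfin.toFinset.biUnion (fun x => Finset.univ.image x) with hA0
  have hA0card : A0.card ≤ p * U.ncard := by
    rw [Set.ncard_eq_toFinset_card U hUfin, mul_comm]
    refine Finset.card_biUnion_le_card_mul _ _ p fun x _ => ?_
    refine Finset.card_image_le.trans ?_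
    simp
  have hne' : σ = 0 ∨ Nonempty (Fin n) := by
    rcases Nat.eq_zero_or_pos p with hp | hp
    · left; simp [hσ, hp]
    · right
      obtain ⟨x, -⟩ := hne
      exact ⟨x ⟨0, hp⟩⟩
  -- the scheme
  obtain ⟨κ, B, S, h1, h2, h3, h4, h5, h6, h7, h8⟩ := scheme_aux G r w Tc A0
    (by
      intro M A hA hAM
      obtain ⟨key, hkey, hkc⟩ := hc (Fin n) G hex M A hAM
      refine ⟨key, hkey, fun b => hTc _ ?_⟩
      have h := hkc b
      have h' : c * A.card ≤ c * (p * U.ncard) :=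
        Nat.mul_le_mul_left _ ((Finset.card_le_card hA).trans hA0card)
      refine le_trans (le_of_eq ?_) (h.trans h')
      congr!)
    kk Set.univ ∅ A0 (hgame (Fin n) G hex) subset_rfl (fun a _ => ⟨trivial, fun _ _ => trivial⟩)
  -- types over `S`
  obtain ⟨τ, hτ⟩ := htypes (Fin n) G
  have henum : ∀ N : Fin p → List (Fin n), ∃ e : Fin σ → Fin n,
      (∀ i, (N i).length ≤ kk) → ∀ v, (∃ l, v ∈ S (N l)) → ∃ i, e i = v := by
    intro N
    by_cases hN : ∀ i, (N i).length ≤ kk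
    · obtain ⟨e, he⟩ := exists_enum (Finset.univ.biUnion (fun l => S (N l))) σ (by
        refine (Finset.card_biUnion_le_card_mul _ _ (w * kk) fun l _ => ?_).trans (by simp [hσ])
        refine (h5 (N l)).trans ?_
        simp only [Finset.card_empty, zero_add]
        exact Nat.mul_le_mul_left _ (hN l)) hne'
      refine ⟨e, fun _ v hv => he v ?_⟩
      obtain ⟨l, hl⟩ := hv
      exact Finset.mem_biUnion.2 ⟨l, Finset.mem_univ _, hl⟩
    · obtain ⟨e, -⟩ := exists_enum (∅ : Finset (Fin n)) σ (by simp) hne'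
      exact ⟨e, fun h => absurd h hN⟩
  choose e he using henum
  have hmain : ∀ X : Finset (Fin p → Fin n), (X : Set (Fin p → Fin n)) ⊆ U →
      ∃ χ : (Fin p → Fin n) → ℤ, (∀ x, χ x = 1 ∨ χ x = -1) ∧
      ∀ y, |∑ x ∈ X.filter (fun x => Sat G φ x y), χ x| ≤
        ((q * (Tc + 1) ^ kk + 1) ^ (2 * p) * Fintype.card T *
          (2 * ((kk + 1) ^ p * 2 ^ p * Fintype.card T)) : ℕ) := by
    intro X hX
    refine disc_bound hBF G p q r kk ((Tc + 1) ^ kk) (fun x y => Sat G φ x y) A0 κ B S h1 h2 h3 h4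
      h6 h8 (fun N x => τ (Fin.append x (e N))) ?_ X ?_
    · intro N hN x x' y hxx' hs hs'
      have hEF := hτ _ _ hxx'
      have hEF2 : EF G Set.univ Set.univ k' (Set.range (fun i => (x i, x' i)) ∪
          Diag {v | ∃ l, v ∈ S (N l)}) := by
        refine hEF.mono_set ?_
        rintro ⟨a, b⟩ (⟨i, hi⟩ | ⟨hab, hv⟩)
        · refine ⟨Fin.castAdd σ i, ?_⟩
          simpa using hi
        · obtain ⟨i, hi⟩ := he N hN a hv
          simp only at hab
          subst hab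
          exact ⟨Fin.natAdd p i, by simp [hi]⟩
      have := hsep (Fin n) G {v | ∃ l, v ∈ S (N l)} x x' y hEF2 hs hs'
      exact hk1 (Fin n) G x x' y y this
    · intro x hx i
      refine Finset.mem_biUnion.2 ⟨x, ?_, Finset.mem_image_of_mem _ (Finset.mem_univ i)⟩
      rw [Set.Finite.mem_toFinset]
      exact hX hx
  -- conclusion
  refine csSup_le ⟨disc (setSystem G φ) ∅, ∅, by simp, rfl⟩ ?_
  rintro d ⟨X, hX, rfl⟩
  refine Nat.sInf_le ?_
  obtain ⟨χ, hχ, hb⟩ := hmain X hX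
  refine ⟨χ, hχ, ?_⟩
  rintro _ ⟨y, rfl⟩
  have := hb y
  convert this
  exact Iff.rfl

lemma herdisc_of_empty {α : Type} {𝒮 : Set (Set α)} (h : ⋃₀ 𝒮 = ∅) : herdisc 𝒮 = 0 := by
  have : {d : ℕ | ∃ X : Finset α, (X : Set α) ⊆ ⋃₀ 𝒮 ∧ d = disc 𝒮 X} = {0} := by
    ext d
    constructor
    · rintro ⟨X, hX, rfl⟩
      rw [h, Set.subset_empty_iff, Finset.coe_eq_empty] at hX
      subst hX
      have : disc 𝒮 ∅ ≤ 0 := Nat.sInf_le ⟨fun _ => 1, fun _ => Or.inl rfl, fun S _ => by simp⟩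
      simpa using this
    · rintro rfl
      refine ⟨∅, by simp, ?_⟩
      have : disc 𝒮 ∅ ≤ 0 := Nat.sInf_le ⟨fun _ => 1, fun _ => Or.inl rfl, fun S _ => by simp⟩
      omega
  rw [herdisc, this]
  exact csSup_singleton 0

/-- Nowhere dense classes have small hereditary discrepancy. -/
theorem forward_of (hBF : BeckFiala) (hG : ∀ t, GameBound t) (hC : ∀ t, CoverBound t)
    (C : GraphClass) (h : IsNowhereDense C) : HasSmallHerdisc C := by
  intro p q φ ε hε
  choose t ht using h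
  have hex : ∀ (n : ℕ) (G : SimpleGraph (Fin n)), C n G → Excl G t :=
    fun n G hCG r hs => ht r n G hCG (isContained_of_hasSubdiv hs)
  obtain ⟨r, kk, cT, hmain⟩ := herdisc_bound hBF t (hG t) (hC t) φ
  set j : ℕ := ⌈2 * p * kk / ε⌉₊ + 1 with hj
  have hj1 : 1 ≤ j := by omega
  obtain ⟨c, hc⟩ := hmain j hj1
  have hjpos : (0 : ℝ) < j := by exact_mod_cast hj1
  set δ : ℝ := 1 / j with hδ
  have hδpos : 0 < δ := by positivity
  have hexp : δ * (2 * p * kk : ℝ) ≤ ε := by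
    have h1 : (2 * p * kk : ℝ) / ε ≤ j := by
      refine (Nat.le_ceil _).trans ?_
      rw [hj]; push_cast; linarith
    rw [div_le_iff₀ hε] at h1
    rw [hδ, one_div, inv_mul_le_iff₀ hjpos]
    exact h1
  set c1 : ℝ := max (c * p : ℝ) 1 with hc1
  have hc1' : 1 ≤ c1 := le_max_right _ _
  set K : ℝ := (q + 1 : ℝ) ^ (2 * p) * 2 ^ (2 * p * kk) * c1 ^ ε * cT *
    (2 * ((kk + 1) ^ p * 2 ^ p * cT)) with hK
  refine ⟨K, fun n G hCG => ?_⟩
  rcases Set.eq_empty_or_nonempty (⋃₀ setSystem G φ) with hemp | hne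
  · rw [herdisc_of_empty hemp, hemp, Set.ncard_empty]
    simp [Real.zero_rpow hε.ne']
  · set u : ℕ := (⋃₀ setSystem G φ).ncard with hu
    have hu1 : 1 ≤ u := by
      rw [hu, Nat.one_le_iff_ne_zero, Ne, Set.ncard_eq_zero]
      exact hne.ne_empty
    have hu1' : (1 : ℝ) ≤ u := by exact_mod_cast hu1
    have hcu : (1 : ℝ) ≤ c1 * u := by nlinarith
    have hcu0 : (0 : ℝ) ≤ c1 * u := by linarith
    set Tc : ℕ := ⌊(c1 * u) ^ δ⌋₊ with hTc
    have hTcle : (Tc : ℝ) ≤ (c1 * u) ^ δ := Nat.floor_le (by positivity)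
    have hb := hc n G (hex n G hCG) Tc (by
      intro x hx
      rw [hTc, Nat.le_floor_iff (by positivity)]
      have h1 : ((x : ℝ)) ^ j ≤ c1 * u := by
        have h2 : ((x : ℝ)) ^ j ≤ c * (p * u) := by exact_mod_cast hx
        refine h2.trans ?_
        rw [← mul_assoc]
        exact mul_le_mul_of_nonneg_right (le_max_left _ _) (by positivity)
      calc (x : ℝ) = ((x : ℝ) ^ j) ^ δ := by
            rw [hδ, one_div, Real.pow_rpow_inv_natCast (by positivity) (by omega)]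
        _ ≤ (c1 * u) ^ δ := Real.rpow_le_rpow (by positivity) h1 hδpos.le) hne
    have hb' : (herdisc (setSystem G φ) : ℝ) ≤ (q * (Tc + 1) ^ kk + 1) ^ (2 * p) * cT *
        (2 * ((kk + 1) ^ p * 2 ^ p * cT)) := by exact_mod_cast hb
    refine hb'.trans ?_
    have hA : (Tc : ℝ) + 1 ≤ 2 * (c1 * u) ^ δ := by
      have : (1 : ℝ) ≤ (c1 * u) ^ δ := Real.one_le_rpow hcu hδpos.le
      linarith
    have hB : (q * ((Tc : ℝ) + 1) ^ kk + 1) ≤ (q + 1) * (2 * (c1 * u) ^ δ) ^ kk := by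
      have h1 : ((Tc : ℝ) + 1) ^ kk ≤ (2 * (c1 * u) ^ δ) ^ kk := by gcongr
      have h2 : (1 : ℝ) ≤ (2 * (c1 * u) ^ δ) ^ kk := by
        refine one_le_pow₀ ?_
        have : (1 : ℝ) ≤ (c1 * u) ^ δ := Real.one_le_rpow hcu hδpos.le
        linarith
      have h3 : (0 : ℝ) ≤ q := by positivity
      nlinarith
    have hC' : (q * ((Tc : ℝ) + 1) ^ kk + 1) ^ (2 * p) ≤
        (q + 1 : ℝ) ^ (2 * p) * 2 ^ (2 * p * kk) * c1 ^ ε * (u : ℝ) ^ ε := by
      have h1 : (q * ((Tc : ℝ) + 1) ^ kk + 1) ^ (2 * p) ≤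
          ((q + 1) * (2 * (c1 * u) ^ δ) ^ kk) ^ (2 * p) := by gcongr
      refine h1.trans ?_
      have h2 : ((c1 * u) ^ δ) ^ (kk * (2 * p)) ≤ c1 ^ ε * (u : ℝ) ^ ε := by
        rw [← Real.mul_rpow (by linarith) (by positivity), ← Real.rpow_natCast,
          ← Real.rpow_mul hcu0]
        refine Real.rpow_le_rpow_of_exponent_le hcu ?_
        push_cast
        calc δ * (kk * (2 * p) : ℝ) = δ * (2 * p * kk : ℝ) := by ring
          _ ≤ ε := hexp
      calc ((q + 1) * (2 * (c1 * u) ^ δ) ^ kk) ^ (2 * p)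
          = (q + 1 : ℝ) ^ (2 * p) * 2 ^ (2 * p * kk) * ((c1 * u) ^ δ) ^ (kk * (2 * p)) := by
            rw [mul_pow, mul_pow, mul_pow, ← pow_mul, ← pow_mul, mul_assoc, mul_comm kk (2 * p)]
        _ ≤ (q + 1 : ℝ) ^ (2 * p) * 2 ^ (2 * p * kk) * (c1 ^ ε * (u : ℝ) ^ ε) := by gcongr
        _ = _ := by ring
    calc (q * ((Tc : ℝ) + 1) ^ kk + 1) ^ (2 * p) * cT * (2 * ((kk + 1) ^ p * 2 ^ p * cT))
        ≤ ((q + 1 : ℝ) ^ (2 * p) * 2 ^ (2 * p * kk) * c1 ^ ε * (u : ℝ) ^ ε) * cT *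
          (2 * ((kk + 1) ^ p * 2 ^ p * cT)) := by gcongr
      _ = K * (u : ℝ) ^ ε := by rw [hK]; ring

end Pool.Agent.Helper28.HD
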