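import Mathlib
import Pool.Agent.Helper28.HD.Defs

/-!
# Module 2, parts (B) and (C): weak reachability is small if all fans are small
-/

namespace Pool.Agent.Helper28.HD

open SimpleGraph

variable {V : Type} {G : SimpleGraph V}

/-- The first vertex of a walk with a property that holds at its end. -/
lemma walk_first (P : V → Prop) {v u : V} (p : G.Walk v u) (hu : P u) :
    ∃ z, P z ∧ z ∈ p.support ∧ ∃ (p₁ : G.Walk v z) (p₂ : G.Walk z u),
      p₁.length + p₂.length = p.length ∧ (∀ x ∈ p₁.support, x ∈ p.support) ∧
      (∀ x ∈ p₂.support, x ∈ p.support) ∧ ∀ x ∈ p₁.support, x ≠ z → ¬ P x := by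
  induction p with
  | nil => exact ⟨_, hu, by simp, Walk.nil, Walk.nil, by simp, by simp, by simp, by simp⟩
  | @cons v w u h p ih =>
    by_cases hv : P v
    · refine ⟨v, hv, by simp, Walk.nil, Walk.cons h p, by simp, by simp, fun x hx => hx, ?_⟩
      simp
    · obtain ⟨z, hz, hzp, p₁, p₂, h1, h2, h3, h4⟩ := ih hu
      refine ⟨z, hz, by simp [hzp], Walk.cons h p₁, p₂, ?_, ?_, ?_, ?_⟩
      · simp only [Walk.length_cons]; omega
      · intro x hx
        rcases List.mem_cons.1 (by simpa using hx) with rfl | hx
        · simp
        · simp [h2 x hx]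
      · intro x hx
        simp [h3 x hx]
      · intro x hx hxz
        rcases List.mem_cons.1 (by simpa using hx) with rfl | hx
        · exact hv
        · exact h4 x hx hxz

lemma walk_drop {v u x : V} (p : G.Walk v u) (hx : x ∈ p.support) (hxv : x ≠ v) :
    ∃ q : G.Walk x u, q.length + 1 ≤ p.length ∧ ∀ z ∈ q.support, z ∈ p.support := by
  classical
  refine ⟨p.dropUntil x hx, ?_, fun z hz => p.support_dropUntil_subset_support hx hz⟩
  have h1 := congrArg Walk.length (p.take_spec hx)
  rw [Walk.length_append] at h1
  have h2 : (p.takeUntil x hx).length ≠ 0 := fun h => hxv (Walk.eq_of_length_eq_zero h).symm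
  omega

lemma walk_support_mem {X : Finset V} (hX : ∀ u v, G.Adj u v → u ∈ X) {v u : V}
    (p : G.Walk v u) (hv : v ∈ X) : ∀ x ∈ p.support, x ∈ X := by
  induction p with
  | nil => simpa using hv
  | @cons v w u h p ih =>
    intro x hx
    rcases List.mem_cons.1 (by simpa using hx) with rfl | hx
    · exact hv
    · exact ih (hX _ _ h.symm) x hx

open Classical in
/-- Vertices before `v` that are reached from `y` through vertices not before `v`. -/
noncomputable def TR (G : SimpleGraph V) (π : V → ℕ) (X : Finset V) (v : V) (a : ℕ) (y : V) :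
    Finset V :=
  X.filter (fun u => π u < π v ∧ ∃ p : G.Walk y u, p.length ≤ a ∧
    ∀ x ∈ p.support, x ≠ u → π v ≤ π x)

/-- All fans at `v` (with respect to the order `π`, length at most `r`) have size at most `k`. -/
def FanBound (G : SimpleGraph V) (π : V → ℕ) (r k : ℕ) (v : V) : Prop :=
  ∀ (m : ℕ) (e : Fin m → V) (p : ∀ i, G.Walk v (e i)),
    (∀ i, (p i).length ≤ r ∧ π (e i) < π v ∧
      ∀ x ∈ (p i).support, x ≠ v → x ≠ e i → π v < π x) →
    (∀ i j, i ≠ j → ∀ x ∈ (p i).support, x ∈ (p j).support → x = v) → m ≤ k

lemma card_TR {X : Finset V} (hX : ∀ u v, G.Adj u v → u ∈ X) {π : V → ℕ}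
    (hπ : Set.InjOn π (X : Set V)) {r k : ℕ} (hadm : ∀ v ∈ X, FanBound G π r k v)
    {v : V} : ∀ a, a ≤ r → ∀ y ∈ X, π v ≤ π y → (TR G π X v a y).card + 1 ≤ (k * r + 1) ^ a := by
  classical
  intro a
  induction a with
  | zero =>
    intro _ y hy hvy
    have : TR G π X v 0 y = ∅ := by
      rw [TR, Finset.filter_eq_empty_iff]
      rintro u hu ⟨h1, p, hp, -⟩
      have := Walk.eq_of_length_eq_zero (Nat.le_zero.1 hp)
      subst this
      omega
    simp [this]
  | succ a ih =>
    intro har y hy hvy
    -- a maximal fan at `y`
    set P : ℕ → Prop := fun m => ∃ (e : Fin m → V) (p : ∀ i, G.Walk y (e i)),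
      (∀ i, (p i).length ≤ r ∧ π (e i) < π y ∧
        ∀ x ∈ (p i).support, x ≠ y → x ≠ e i → π y < π x) ∧
      (∀ i j, i ≠ j → ∀ x ∈ (p i).support, x ∈ (p j).support → x = y) with hP
    have hPk : ∀ m, P m → m ≤ k := by
      rintro m ⟨e, p, h1, h2⟩
      exact hadm y hy m e p h1 h2
    obtain ⟨m, hm, hm'⟩ : ∃ m, P m ∧ ¬ P (m + 1) := by
      by_contra hcon
      push Not at hcon
      have hall : ∀ m, P m := by
        intro m
        induction m with
        | zero => exact ⟨fun i => i.elim0, fun i => i.elim0, fun i => i.elim0, fun i => i.elim0⟩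
        | succ m ihm => exact hcon m ihm
      have := hPk (k + 1) (hall _)
      omega
    have hmk := hPk m hm
    obtain ⟨e, p, h1, h2⟩ := hm
    set F : Finset V := Finset.univ.biUnion (fun i => (p i).support.toFinset.erase y) with hF
    have hFc : F.card ≤ k * r := by
      refine (Finset.card_biUnion_le_card_mul _ _ r fun i _ => ?_).trans ?_
      · rw [Finset.card_erase_of_mem (by simp)]
        have h3 := List.toFinset_card_le (p i).support
        have h4 := (h1 i).1
        rw [Walk.length_support] at h3
        omega
      · simp only [Finset.card_univ, Fintype.card_fin]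
        exact Nat.mul_le_mul_right _ hmk
    have hsub : TR G π X v (a + 1) y ⊆
        F.biUnion (fun z => insert z (if π v ≤ π z ∧ z ∈ X then TR G π X v a z else ∅)) := by
      intro u hu
      rw [TR, Finset.mem_filter] at hu
      obtain ⟨huX, huv, q, hq, hqv⟩ := hu
      obtain ⟨z, hz, hzq, q₁, q₂, hl, hs1, hs2, hfirst⟩ :=
        walk_first (fun x => π x < π y) q (lt_of_lt_of_le huv hvy)
      have hqX := walk_support_mem hX q hy
      -- `q₁` meets the fan
      obtain ⟨x, hxq, hxy, hxF⟩ : ∃ x ∈ q₁.support, x ≠ y ∧ x ∈ F := by
        by_contra hno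
        push Not at hno
        refine hm' ⟨Fin.snoc e z, Fin.snoc (α := fun i => G.Walk y (Fin.snoc (α := fun _ => V)
          e z i)) (fun i => (p i).copy rfl (by simp)) (q₁.copy rfl (by simp)), ?_, ?_⟩
        · intro i
          induction i using Fin.lastCases with
          | last =>
            simp only [Fin.snoc_last, Walk.length_copy, Walk.support_copy]
            refine ⟨by omega, hz, fun x hx hxy hxz => ?_⟩
            have h3 := hfirst x hx hxz
            have h4 : π y ≤ π x := not_lt.1 h3
            exact lt_of_le_of_ne h4 (fun h5 => hxy (hπ (hqX x (hs1 x hx)) hy h5.symm))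
          | cast i =>
            simp only [Fin.snoc_castSucc, Walk.length_copy, Walk.support_copy]
            exact h1 i
        · have hcross : ∀ i, ∀ x ∈ (p i).support, x ∈ q₁.support → x = y := by
            intro i x hx hx'
            by_contra hxy
            refine hno x hx' hxy ?_
            rw [hF, Finset.mem_biUnion]
            exact ⟨i, Finset.mem_univ _, by simp [hxy, hx]⟩
          intro i j hij
          induction i using Fin.lastCases with
          | last =>
            induction j using Fin.lastCases with
            | last => exact absurd rfl hij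
            | cast j =>
              simp only [Fin.snoc_last, Fin.snoc_castSucc, Walk.support_copy]
              intro x hx hx'
              exact hcross j x hx' hx
          | cast i =>
            induction j using Fin.lastCases with
            | last =>
              simp only [Fin.snoc_last, Fin.snoc_castSucc, Walk.support_copy]
              intro x hx hx'
              exact hcross i x hx hx'
            | cast j =>
              simp only [Fin.snoc_castSucc, Walk.support_copy]
              exact h2 i j (fun h => hij (by rw [h]))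
      rw [Finset.mem_biUnion]
      refine ⟨x, hxF, ?_⟩
      rw [Finset.mem_insert]
      by_cases hxu : x = u
      · exact Or.inl hxu.symm
      · right
        have hxq' := hs1 x hxq
        have hvx := hqv x hxq' hxu
        rw [if_pos ⟨hvx, hqX x hxq'⟩, TR, Finset.mem_filter]
        obtain ⟨q', hq'l, hq's⟩ := walk_drop q hxq' hxy
        exact ⟨huX, huv, q', by omega, fun w hw hwu => hqv w (hq's w hw) hwu⟩
    have hcard := (Finset.card_le_card hsub).trans
      (Finset.card_biUnion_le_card_mul _ _ ((k * r + 1) ^ a) fun z _ => by
        refine (Finset.card_insert_le _ _).trans ?_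
        split_ifs with h3
        · exact ih (by omega) z h3.2 h3.1
        · simp only [Finset.card_empty, zero_add]
          exact Nat.one_le_pow _ _ (by omega))
    have h5 : F.card * (k * r + 1) ^ a ≤ (k * r) * (k * r + 1) ^ a := Nat.mul_le_mul_right _ hFc
    have h6 : 1 ≤ (k * r + 1) ^ a := Nat.one_le_pow _ _ (by omega)
    rw [pow_succ, mul_comm ((k * r + 1) ^ a), add_mul, one_mul]
    omega

open Classical in
/-- Weak reachability sets are small if all fans are small. -/
theorem wreach_of_adm (X : Finset V) (hX : ∀ u v, G.Adj u v → u ∈ X) (π : V → ℕ)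
    (hπ : Set.InjOn π (X : Set V)) (r k : ℕ) (hadm : ∀ v ∈ X, FanBound G π r k v) :
    ∀ v ∈ X, (X.filter (fun u => WR G π r v u)).card ≤ (k * r + 1) ^ (r * r) := by
  set β := (k * r + 1) ^ r with hβ
  have hβ1 : 1 ≤ β := Nat.one_le_pow _ _ (by omega)
  have hmain : ∀ a, a ≤ r → ∀ v ∈ X, (X.filter (fun u => WR G π a v u)).card ≤ β ^ a := by
    intro a
    induction a with
    | zero =>
      intro _ v hv
      have : X.filter (fun u => WR G π 0 v u) ⊆ {v} := by
        intro u hu
        rw [Finset.mem_filter] at hu
        obtain ⟨-, p, hp, -⟩ := hu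
        have := Walk.eq_of_length_eq_zero (Nat.le_zero.1 hp)
        simp [this]
      exact (Finset.card_le_card this).trans (by simp)
    | succ a ih =>
      intro har v hv
      have hsub : X.filter (fun u => WR G π (a + 1) v u) ⊆
          insert v ((TR G π X v r v).biUnion (fun z => X.filter (fun u => WR G π a z u))) := by
        intro u hu
        rw [Finset.mem_filter] at hu
        obtain ⟨huX, q, hq, hqu⟩ := hu
        by_cases huv : u = v
        · exact Finset.mem_insert.2 (Or.inl huv)
        · refine Finset.mem_insert_of_mem ?_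
          have hlt : π u < π v := lt_of_le_of_ne (hqu v q.start_mem_support)
            (fun h => huv (hπ huX hv h))
          obtain ⟨z, hz, hzq, q₁, q₂, hl, hs1, hs2, hfirst⟩ :=
            walk_first (fun x => π x < π v) q hlt
          have hq1 : q₁.length ≠ 0 := by
            intro h
            have := Walk.eq_of_length_eq_zero h
            subst this
            exact absurd hz (lt_irrefl _)
          rw [Finset.mem_biUnion]
          refine ⟨z, ?_, ?_⟩
          · rw [TR, Finset.mem_filter]
            refine ⟨walk_support_mem hX q hv z hzq, hz, q₁, by omega, ?_⟩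
            intro x hx hxz
            exact not_lt.1 (hfirst x hx hxz)
          · rw [Finset.mem_filter]
            exact ⟨huX, q₂, by omega, fun x hx => hqu x (hs2 x hx)⟩
      refine (Finset.card_le_card hsub).trans ((Finset.card_insert_le _ _).trans ?_)
      have h1 := Finset.card_biUnion_le_card_mul (TR G π X v r v)
        (fun z => X.filter (fun u => WR G π a z u)) (β ^ a) (fun z hz => by
          rw [TR, Finset.mem_filter] at hz
          exact ih (by omega) z hz.1)
      have h2 := card_TR hX hπ hadm (v := v) r le_rfl v hv le_rfl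
      have h3 : 1 ≤ β ^ a := Nat.one_le_pow _ _ hβ1
      calc _ ≤ (TR G π X v r v).card * β ^ a + 1 := Nat.add_le_add_right h1 1
        _ ≤ ((TR G π X v r v).card + 1) * β ^ a := by rw [add_mul, one_mul]; omega
        _ ≤ β * β ^ a := Nat.mul_le_mul_right _ h2
        _ = β ^ (a + 1) := by rw [pow_succ, mul_comm]
  intro v hv
  refine (hmain r le_rfl v hv).trans ?_
  rw [hβ, ← pow_mul]

end Pool.Agent.Helper28.HD
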